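import Pool.Agent.Helper90.PH.Frame

/-!
# All systems of equations from the sums of powers of the numbers of kernel vectors
-/

set_option autoImplicit false

namespace Pool.Agent.Helper90.PH

open Matrix Module Pool.Agent.Helper90.PZ Pool.Agent.Helper90.PG Pool.Agent.E8helper17.FZ MvPolynomial

section
variable {P : ℕ} {𝒞 : ((K : Type) → [Field K] → ℤ) → Prop} (h𝒞 : ClosedClass P 𝒞)
include h𝒞

/-- **All systems of elementary equations.** -/
theorem sys_of_G (h : ∀ (A C : Type) [Fintype A] [Fintype C] (Z : A → C → Prop), 𝒞 (G 3 Z))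
    {V : Type} [Fintype V] (E : Sys V) :
    𝒞 (fun K _ => (Nat.card {x : V → K // E.Sat x} : ℤ)) := by
  classical
  have h1 := pq_all h𝒞 h _ _ E.shape.Z E.shape.T
  have hgr : Growth (fun K _ => (Nat.card {x : V → K // E.Sat x} : ℤ)) := by
    refine growth_of_le (n := Fintype.card V) fun K _ _ => ?_
    rw [abs_of_nonneg (by positivity)]
    have h1 : Nat.card {x : V → K // E.Sat x} ≤ Nat.card (V → K) := Finite.card_subtype_le _
    rw [Nat.card_fun, Nat.card_eq_fintype_card (α := V)] at h1
    exact_mod_cast h1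
  refine h𝒞.div hgr (gp 3 3 * (Polynomial.X ^ 1 - 1) ^
    (3 + (Fintype.card (Pt V E.O E.A E.M) + Fintype.card (Ln V) + 2)))
    (.mul (gp_den 3) ((Den.cyc 1 one_pos).pow _)) (h𝒞.congr h1 fun K _ _ _ => ?_)
  rw [pq_cfg, cfgN_eq, Polynomial.eval_mul, Polynomial.eval_pow, Polynomial.eval_sub,
    Polynomial.eval_pow, Polynomial.eval_X, Polynomial.eval_one, pow_add, pow_one]
  ring

/-- **All systems of polynomial equations.** -/
theorem all_of_G (h : ∀ (A C : Type) [Fintype A] [Fintype C] (Z : A → C → Prop), 𝒞 (G 3 Z))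
    {n r : ℕ} (f : Fin r → MvPolynomial (Fin n) ℤ) :
    𝒞 (fun K _ => (points f K : ℤ)) := by
  classical
  let g : MvPolynomial (Fin n ⊕ Fin r) ℤ := ∑ i, X (Sum.inr i) * rename Sum.inl (f i)
  obtain ⟨τ, _, E, o, hz⟩ := repS_all g
  let ρ := (Fin n ⊕ Fin r) ⊕ τ
  have hpow : ∀ m : ℕ, 𝒞 (fun K _ => (Nat.card K : ℤ) ^ m) := by
    intro m
    have h := sys_of_G h𝒞 h (V := Fin m) ⟨Empty, Empty, Empty, Empty.elim, Empty.elim, Empty.elim,
      Empty.elim, Empty.elim, Empty.elim, Empty.elim⟩
    refine h𝒞.congr h fun K _ _ _ => ?_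
    rw [Nat.card_congr (Equiv.subtypeUnivEquiv fun x => ?_), Nat.card_fun,
      Nat.card_eq_fintype_card (α := Fin m), Fintype.card_fin]
    · push_cast; rfl
    · exact ⟨fun j => j.elim, fun j => j.elim, fun j => j.elim⟩
  have hq := sys_of_G h𝒞 h (V := ρ) (E.union (Sys.add o o o))
  have hg : 𝒞 (fun K _ => (Nat.card {xy : Fin n ⊕ Fin r → K // aeval xy g = 0} : ℤ)) := by
    refine h𝒞.congr hq fun K _ _ _ => ?_
    congr 1
    refine Nat.card_congr ?_
    choose z hz1 hz2 using hz K
    have key : ∀ w : ρ → K, (E.union (Sys.add o o o)).Sat w ↔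
        (w ∘ Sum.inr = z (w ∘ Sum.inl) ∧ aeval (w ∘ Sum.inl) g = 0) := by
      intro w
      have hw : w = Sum.elim (w ∘ Sum.inl) (w ∘ Sum.inr) := (Sum.elim_comp_inl_inr w).symm
      rw [Sys.sat_union, Sys.sat_add]
      have h1 : E.Sat w ↔ w ∘ Sum.inr = z (w ∘ Sum.inl) := by
        conv_lhs => rw [hw]
        exact hz1 _ _
      rw [h1]
      refine and_congr_right fun k1 => ?_
      rw [← hz2, ← k1, ← hw]
      constructor
      · intro h; linear_combination -h
      · intro h; rw [h]; ring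
    exact
      { toFun := fun w => ⟨w.1 ∘ Sum.inl, ((key w.1).1 w.2).2⟩
        invFun := fun x => ⟨Sum.elim x.1 (z x.1), (key _).2 ⟨rfl, x.2⟩⟩
        left_inv := fun w => by
          apply Subtype.ext
          show Sum.elim (w.1 ∘ Sum.inl) (z (w.1 ∘ Sum.inl)) = w.1
          rw [← ((key w.1).1 w.2).1, Sum.elim_comp_inl_inr]
        right_inv := fun x => by
          apply Subtype.ext
          show Sum.elim x.1 (z x.1) ∘ Sum.inl = x.1
          rw [Sum.elim_comp_inl] }
  refine h𝒞.of_rel (u := r) (growth_of_le (n := n) ?_)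
    (hpow (r + n)) (h𝒞.poly_mul hg Polynomial.X) ?_
  · intro K _ _
    rw [abs_of_nonneg (by positivity)]
    have h1 : points f K ≤ Nat.card (Fin n → K) := Finite.card_subtype_le _
    rw [Nat.card_fun, Nat.card_eq_fintype_card (α := Fin n), Fintype.card_fin] at h1
    exact_mod_cast h1
  · intro K _ _
    have := Fintype.ofFinite K
    have e1 := y_trick (K := K) (X := Fin n → K) (ι := Fin r) (fun x i => aeval x (f i))
    have e2 : Nat.card {xy : Fin n ⊕ Fin r → K // aeval xy g = 0} =
        Nat.card {z : (Fin n → K) × (Fin r → K) // ∑ i, z.2 i * aeval z.1 (f i) = 0} := by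
      refine Nat.card_congr ((Equiv.sumArrowEquivProdArrow (Fin n) (Fin r) K).subtypeEquiv
        fun v => ?_)
      simp only [g, map_sum, map_mul, aeval_X, aeval_rename]
      rfl
    have e3 : Nat.card {x : Fin n → K // (fun i => aeval x (f i)) = 0} = points f K := by
      unfold points
      refine Nat.card_congr (Equiv.subtypeEquivRight fun x => ?_)
      exact _root_.funext_iff
    rw [Polynomial.eval_X, e2, e1, e3, Nat.card_fun, Nat.card_eq_fintype_card (α := Fin n),
      Fintype.card_fin, Fintype.card_fin]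
    push_cast
    ring

end

/-! ### reindexing -/

theorem kn_reindex {A A' C C' : Type} [Fintype A] [Fintype A'] [Fintype C] [Fintype C'] (eA : A ≃ A')
    (eC : C ≃ C') {K : Type} [Field K] (L : Matrix A C K) :
    kn (Matrix.reindex eA eC L) = kn L := by
  unfold kn
  refine Nat.card_congr ((Equiv.arrowCongr eC (Equiv.refl K)).subtypeEquiv fun w => ?_).symm
  constructor
  · intro h a
    have h1 := h (eA.symm a)
    rw [← Equiv.sum_comp eC.symm] at h1
    exact h1
  · intro h a
    have h1 := h (eA a)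
    rw [← Equiv.sum_comp eC] at h1
    refine (Finset.sum_congr rfl fun c _ => ?_).trans h1
    show L a c * w c = L (eA.symm (eA a)) (eC.symm (eC c)) * w (eC.symm (eC c))
    rw [eA.symm_apply_apply, eC.symm_apply_apply]

theorem G_reindex {A A' C C' : Type} [Fintype A] [Fintype A'] [Fintype C] [Fintype C'] (eA : A ≃ A')
    (eC : C ≃ C') (j : ℕ) (Z : A → C → Prop) (K : Type) [Field K] [Finite K] :
    G j (fun a c => Z (eA.symm a) (eC.symm c)) K = G j Z K := by
  classical
  have := Fintype.ofFinite K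
  rw [G_eq, G_eq, ← Equiv.sum_comp (Matrix.reindex eA eC)]
  refine Finset.sum_congr rfl fun L _ => ?_
  rw [kn_reindex]
  have h1 : (∀ a c, Z (eA.symm a) (eC.symm c) → Matrix.reindex eA eC L a c = 0) ↔
      ∀ a c, Z a c → L a c = 0 := by
    constructor
    · intro h a c hac
      have h2 := h (eA a) (eC c) (by rw [eA.symm_apply_apply, eC.symm_apply_apply]; exact hac)
      have h3 : Matrix.reindex eA eC L (eA a) (eC c) = L a c := by
        show L (eA.symm (eA a)) (eC.symm (eC c)) = L a c
        rw [eA.symm_apply_apply, eC.symm_apply_apply]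
      rw [h3] at h2
      exact h2
    · intro h a c hac
      exact h _ _ hac
  by_cases h : ∀ a c, Z a c → L a c = 0
  · rw [if_pos h, if_pos (h1.2 h)]
  · rw [if_neg h, if_neg fun h' => h (h1.1 h')]

/-! ### the sums of weights -/

section
variable {A C : Type} [Fintype A] [Fintype C]

/-- the sum of the weights for a set `T` of positions -/
noncomputable def WT (T : Finset (A × C)) (e : ℕ) (Z : A → C → Prop) (K : Type) [Field K] : ℤ :=
  W (fun t : {t // t ∈ T} => t.1) e Z K

theorem WT_insert [DecidableEq A] [DecidableEq C] (T : Finset (A × C)) {t₀ : A × C} (ht : t₀ ∉ T)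
    (e : ℕ) (Z : A → C → Prop) (K : Type) [Field K] [Finite K] :
    WT (insert t₀ T) e Z K = WT T e Z K +
      ((Nat.card K : ℤ) ^ 2 - 1) * WT T e (fun a c => Z a c ∨ (a, c) = t₀) K := by
  classical
  have := Fintype.ofFinite K
  unfold WT
  rw [W_eq, W_eq, W_eq, Finset.mul_sum, ← Finset.sum_add_distrib]
  refine Finset.sum_congr rfl fun l _ => ?_
  have hw : (wt (fun t : {t // t ∈ insert t₀ T} => t.1) e l : ℤ) =
      (if l t₀.1 t₀.2 = 0 then (Nat.card K : ℤ) ^ 2 else 1) * wt (fun t : {t // t ∈ T} => t.1) e l := by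
    unfold wt
    have h1 : ∏ t : {t // t ∈ insert t₀ T}, (if l t.1.1 t.1.2 = 0 then Nat.card K * Nat.card K else 1) =
        ∏ t ∈ insert t₀ T, (if l t.1 t.2 = 0 then Nat.card K * Nat.card K else 1) :=
      Finset.prod_coe_sort (insert t₀ T) fun t => if l t.1 t.2 = 0 then Nat.card K * Nat.card K else 1
    have h2 : ∏ t : {t // t ∈ T}, (if l t.1.1 t.1.2 = 0 then Nat.card K * Nat.card K else 1) =
        ∏ t ∈ T, (if l t.1 t.2 = 0 then Nat.card K * Nat.card K else 1) :=
      Finset.prod_coe_sort T fun t => if l t.1 t.2 = 0 then Nat.card K * Nat.card K else 1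
    rw [h1, h2, Finset.prod_insert ht]
    push_cast
    split_ifs
    · ring
    · ring
  by_cases hZ : ∀ a c, Z a c → l a c = 0
  · rw [if_pos hZ, if_pos hZ, hw]
    by_cases ht' : l t₀.1 t₀.2 = 0
    · rw [if_pos ht', if_pos]
      · ring
      · rintro a c (h | h)
        · exact hZ a c h
        · rw [← h] at ht'; exact ht'
    · rw [if_neg ht', if_neg]
      · ring
      · intro h
        exact ht' (h t₀.1 t₀.2 (Or.inr rfl))
  · rw [if_neg hZ, if_neg hZ, if_neg fun h => hZ fun a c hac => h a c (Or.inl hac)]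
    ring

/-- without thin elements -/
theorem WT_empty (e : ℕ) (Z : A → C → Prop) (K : Type) [Field K] [Finite K] :
    (Nat.card K : ℤ) ^ (Fintype.card C * e) * WT (∅ : Finset (A × C)) e Z K =
      (Nat.card K : ℤ) ^ (Fintype.card A * e) * G (2 * e) Z K := by
  classical
  have := Fintype.ofFinite K
  unfold WT
  rw [W_eq, G_eq, Finset.mul_sum, Finset.mul_sum]
  refine Finset.sum_congr rfl fun l _ => ?_
  by_cases hZ : ∀ a c, Z a c → l a c = 0
  · rw [if_pos hZ, if_pos hZ]
    unfold wt
    have h1 : ∏ t : {t // t ∈ (∅ : Finset (A × C))},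
        (if l t.1.1 t.1.2 = 0 then Nat.card K * Nat.card K else 1) = 1 := by
      rw [Finset.univ_eq_empty, Finset.prod_empty]
    rw [h1, mul_one]
    have hk : kn l = Nat.card K ^ (Fintype.card C - l.rank) := card_ker l
    rw [hk]
    push_cast
    rw [← pow_add, ← pow_mul, ← pow_mul, ← pow_add, ← pow_add]
    congr 1
    have h2 := l.rank_le_card_height
    have h3 := l.rank_le_card_width
    obtain ⟨x, hx⟩ := Nat.exists_eq_add_of_le h2
    obtain ⟨y, hy⟩ := Nat.exists_eq_add_of_le h3
    rw [hx, hy, Nat.add_sub_cancel_left, Nat.add_sub_cancel_left]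
    ring
  · rw [if_neg hZ, if_neg hZ, mul_zero, mul_zero]

theorem WT_growth (T : Finset (A × C)) (e : ℕ) (Z : A → C → Prop) : Growth (WT T e Z) :=
  W_growth _ e Z

end

section
variable {P : ℕ} {𝒞 : ((K : Type) → [Field K] → ℤ) → Prop} (h𝒞 : ClosedClass P 𝒞)
include h𝒞

theorem WT_all {A C : Type} [Fintype A] [Fintype C] [DecidableEq A] [DecidableEq C] {e : ℕ}
    (h : ∀ T : Finset (A × C), 𝒞 (WT T e fun _ _ => False)) (S : Finset (A × C)) :
    ∀ T : Finset (A × C), Disjoint S T → 𝒞 (WT T e fun a c => (a, c) ∈ S) := by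
  induction S using Finset.induction_on with
  | empty =>
    intro T _
    refine h𝒞.congr (h T) fun K _ _ _ => ?_
    simp
  | insert t₀ S ht₀ ih =>
    intro T hT
    rw [Finset.disjoint_insert_left] at hT
    refine h𝒞.div (WT_growth T e _) (Polynomial.X ^ 2 - 1) (.cyc 2 two_pos) ?_
    refine h𝒞.congr (h𝒞.add (ih (insert t₀ T) (by
      rw [Finset.disjoint_insert_right]
      exact ⟨ht₀, hT.2⟩)) (h𝒞.neg (ih T hT.2))) fun K _ _ _ => ?_
    rw [WT_insert T hT.1]
    have h1 : (fun (a : A) (c : C) => (a, c) ∈ insert t₀ S) = fun a c => (a, c) ∈ S ∨ (a, c) = t₀ := by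
      ext a c
      rw [Finset.mem_insert, or_comm]
    rw [h1]
    simp

/-- **From the sums of weights to all systems of equations.** -/
theorem points_of_WT {e : ℕ} (he : 2 ≤ e)
    (h : ∀ (a c : ℕ) (T : Finset (Fin a × Fin c)), 𝒞 (WT T e fun _ _ => False))
    {n r : ℕ} (f : Fin r → MvPolynomial (Fin n) ℤ) : 𝒞 (fun K _ => (points f K : ℤ)) := by
  classical
  refine all_of_G h𝒞 (G_le h𝒞 (j := 2 * e) (by omega) fun A C _ _ Z => ?_) f
  let eA := Fintype.equivFin A
  let eC := Fintype.equivFin C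
  let Z' : Fin (Fintype.card A) → Fin (Fintype.card C) → Prop := fun a c => Z (eA.symm a) (eC.symm c)
  have h1 : 𝒞 (WT (∅ : Finset (Fin (Fintype.card A) × Fin (Fintype.card C))) e Z') := by
    have h2 := WT_all h𝒞 (h (Fintype.card A) (Fintype.card C))
      (Finset.univ.filter fun t => Z' t.1 t.2) ∅ (Finset.disjoint_empty_right _)
    have h3 : (fun a c => (a, c) ∈ Finset.univ.filter
        fun t : Fin (Fintype.card A) × Fin (Fintype.card C) => Z' t.1 t.2) = Z' := by
      funext a c
      simp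
    rw [h3] at h2
    exact h2
  refine h𝒞.div (G_growth _ _) (Polynomial.X ^ (Fintype.card (Fin (Fintype.card A)) * e)) (Den.X.pow _)
    (h𝒞.congr (h𝒞.poly_mul h1 (Polynomial.X ^ (Fintype.card (Fin (Fintype.card C)) * e)))
      fun K _ _ _ => ?_)
  rw [Polynomial.eval_pow, Polynomial.eval_X, Polynomial.eval_pow, Polynomial.eval_X, WT_empty,
    G_reindex eA eC]

end

end Pool.Agent.Helper90.PH
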