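import Pool.Agent.Helper90.PH.Row

/-!
# Configurations of vectors in three-space
-/

set_option autoImplicit false

namespace Pool.Agent.Helper90.PH

open Matrix Module Pool.Agent.Helper90.PZ Pool.Agent.Helper90.PG Pool.Agent.E8helper17.FZ

section
variable {A C : Type} [Fintype A] [Fintype C]

/-- pairs of families of vectors in three-space with prescribed orthogonality relations `E` and
prescribed nonzero products `T` -/
noncomputable def pqN (E T : A → C → Prop) (K : Type) [Field K] : ℕ :=
  Nat.card {x : (A → Fin 3 → K) × (C → Fin 3 → K) //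
    (∀ a c, E a c → ∑ k, x.1 a k * x.2 c k = 0) ∧ ∀ a c, T a c → ∑ k, x.1 a k * x.2 c k ≠ 0}

/-- the functions supported on `F` -/
def supS (K : Type) [Field K] (F : C → Prop) : Submodule K (C → K) where
  carrier := {x | ∀ c, ¬ F c → x c = 0}
  add_mem' := by
    intro x y hx hy c hc
    rw [Pi.add_apply, hx c hc, hy c hc, add_zero]
  zero_mem' := fun c _ => rfl
  smul_mem' := by
    intro t x hx c hc
    rw [Pi.smul_apply, hx c hc, smul_zero]

theorem card_supS (K : Type) [Field K] [Finite K] (F : C → Prop) :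
    Nat.card (supS K F) = Nat.card K ^ Nat.card {c // F c} := by
  classical
  rw [← Nat.card_fun]
  refine Nat.card_congr
    { toFun := fun x c => x.1 c.1
      invFun := fun f => ⟨fun c => if h : F c then f ⟨c, h⟩ else 0, fun c hc => dif_neg hc⟩
      left_inv := fun x => by
        apply Subtype.ext
        funext c
        show (if h : F c then x.1 c else 0) = x.1 c
        split_ifs with h
        · rfl
        · exact (x.2 c h).symm
      right_inv := fun f => by
        funext c
        exact dif_pos c.2 }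

theorem row_dual {K : Type} [Field K] [Finite K] (F : C → Prop) (V : C → Fin 3 → K) :
    Nat.card {x : C → K // (∀ c, ¬ F c → x c = 0) ∧ ∀ k, ∑ c, x c * V c k = 0} * Nat.card K ^ 3 =
      Nat.card K ^ Nat.card {c // F c} *
        Nat.card {w : Fin 3 → K // ∀ c, F c → ∑ k, w k * V c k = 0} := by
  classical
  let φ : supS K F →ₗ[K] (Fin 3 → K) :=
    { toFun := fun x k => ∑ c, x.1 c * V c k
      map_add' := by
        intro x y
        funext k
        show ∑ c, (x.1 + y.1) c * V c k = ∑ c, x.1 c * V c k + ∑ c, y.1 c * V c k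
        rw [← Finset.sum_add_distrib]
        exact Finset.sum_congr rfl fun c _ => by rw [Pi.add_apply, add_mul]
      map_smul' := by
        intro t x
        funext k
        show ∑ c, (t • x.1) c * V c k = t • ∑ c, x.1 c * V c k
        rw [smul_eq_mul, Finset.mul_sum]
        exact Finset.sum_congr rfl fun c _ => by rw [Pi.smul_apply, smul_eq_mul]; ring }
  have h1 := card_dual φ
  rw [Fintype.card_fin, card_supS] at h1
  have h2 : Nat.card {x : C → K // (∀ c, ¬ F c → x c = 0) ∧ ∀ k, ∑ c, x c * V c k = 0} =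
      Nat.card {y : supS K F // φ y = 0} :=
    Nat.card_congr
      { toFun := fun x => ⟨⟨x.1, x.2.1⟩, funext x.2.2⟩
        invFun := fun y => ⟨y.1.1, y.1.2, fun k => congrFun y.2 k⟩
        left_inv := fun x => rfl
        right_inv := fun y => rfl }
  have h3 : ∀ (l : Fin 3 → K) (y : supS K F), ∑ k, l k * φ y k = ∑ c, y.1 c * ∑ k, l k * V c k := by
    intro l y
    have e1 : ∀ k, l k * φ y k = ∑ c, y.1 c * (l k * V c k) := by
      intro k
      show l k * ∑ c, y.1 c * V c k = _
      rw [Finset.mul_sum]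
      exact Finset.sum_congr rfl fun c _ => by ring
    rw [Finset.sum_congr rfl fun k _ => e1 k, Finset.sum_comm]
    exact Finset.sum_congr rfl fun c _ => by rw [Finset.mul_sum]
  have h4 : Nat.card {l : Fin 3 → K // ∀ y, ∑ i, l i * φ y i = 0} =
      Nat.card {w : Fin 3 → K // ∀ c, F c → ∑ k, w k * V c k = 0} := by
    refine Nat.card_congr (Equiv.subtypeEquivRight fun l => ?_)
    constructor
    · intro h c hc
      have h6 : ∀ (x : C → K), (∀ c, ¬ F c → x c = 0) → ∑ c, x c * ∑ k, l k * V c k = 0 := by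
        intro x hx
        have h5 := h ⟨x, hx⟩
        rw [h3] at h5
        exact h5
      have h5 := h6 (Pi.single c 1)
        fun c' hc' => Pi.single_eq_of_ne (fun h => hc' (by rw [h]; exact hc)) _
      rw [Finset.sum_eq_single c (fun c' _ hc' => by rw [Pi.single_eq_of_ne hc', zero_mul])
        (fun h => absurd (Finset.mem_univ c) h), Pi.single_eq_same, one_mul] at h5
      exact h5
    · intro h y
      rw [h3]
      refine Finset.sum_eq_zero fun c _ => ?_
      by_cases hc : F c
      · rw [h c hc, mul_zero]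
      · rw [y.2 c hc, zero_mul]
  rw [h2, h1, h4]

/-- matrices with kernel vectors and configurations -/
theorem pq_G (E : A → C → Prop) (K : Type) [Field K] [Finite K] :
    (Nat.card K : ℤ) ^ (3 * Fintype.card A) * G 3 (fun a c => ¬ E a c) K =
      (Nat.card K : ℤ) ^ (∑ a, Nat.card {c // E a c}) * (pqN E (fun _ _ => False) K : ℤ) := by
  classical
  have := Fintype.ofFinite K
  -- both sides as sums over `V`
  have e1 : (G 3 (fun a c => ¬ E a c) K : ℤ) =
      ((∑ V : C → Fin 3 → K, ∏ a, Nat.card {x : C → K // (∀ c, ¬ E a c → x c = 0) ∧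
        ∀ k, ∑ c, x c * V c k = 0} : ℕ) : ℤ) := by
    have a1 : (G 3 (fun a c => ¬ E a c) K : ℤ) = (Nat.card {x : Matrix A C K × (Fin 3 → C → K) //
        (∀ a c, ¬ E a c → x.1 a c = 0) ∧ ∀ k a, ∑ c, x.1 a c * x.2 k c = 0} : ℤ) := by
      have b1 : {x : Matrix A C K × (Fin 3 → C → K) //
          (∀ a c, ¬ E a c → x.1 a c = 0) ∧ ∀ k a, ∑ c, x.1 a c * x.2 k c = 0} ≃
          Σ L : {L : Matrix A C K // ∀ a c, ¬ E a c → L a c = 0},
            (Fin 3 → {w : C → K // ∀ a, ∑ c, L.1 a c * w c = 0}) :=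
        { toFun := fun x => ⟨⟨x.1.1, x.2.1⟩, fun k => ⟨x.1.2 k, x.2.2 k⟩⟩
          invFun := fun y => ⟨(y.1.1, fun k => (y.2 k).1), y.1.2, fun k => (y.2 k).2⟩
          left_inv := fun x => rfl
          right_inv := fun y => rfl }
      rw [Nat.card_congr b1, Nat.card_sigma, G_eq]
      push_cast
      have b2 : ∀ L : {L : Matrix A C K // ∀ a c, ¬ E a c → L a c = 0},
          (Nat.card (Fin 3 → {w : C → K // ∀ a, ∑ c, L.1 a c * w c = 0}) : ℤ) = (kn L.1 : ℤ) ^ 3 := by
        intro L
        rw [Nat.card_fun, Nat.card_eq_fintype_card (α := Fin 3), Fintype.card_fin]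
        push_cast
        rfl
      rw [Finset.sum_congr rfl fun L _ => b2 L, ← Finset.sum_filter]
      rw [Finset.sum_subtype (p := fun L : Matrix A C K => ∀ a c, ¬ E a c → L a c = 0)
        (Finset.univ.filter fun L : Matrix A C K => ∀ a c, ¬ E a c → L a c = 0)
        (fun L => by rw [Finset.mem_filter]; exact ⟨fun h => h.2, fun h => ⟨Finset.mem_univ _, h⟩⟩)
        (fun L => (kn L : ℤ) ^ 3)]
    rw [a1]
    have b3 : {x : Matrix A C K × (Fin 3 → C → K) //
          (∀ a c, ¬ E a c → x.1 a c = 0) ∧ ∀ k a, ∑ c, x.1 a c * x.2 k c = 0} ≃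
          Σ V : C → Fin 3 → K, (∀ a, {x : C → K // (∀ c, ¬ E a c → x c = 0) ∧
            ∀ k, ∑ c, x c * V c k = 0}) :=
      { toFun := fun x => ⟨fun c k => x.1.2 k c, fun a => ⟨x.1.1 a, x.2.1 a, fun k => x.2.2 k a⟩⟩
        invFun := fun y => ⟨(fun a => (y.2 a).1, fun k c => y.1 c k), fun a => (y.2 a).2.1,
          fun k a => (y.2 a).2.2 k⟩
        left_inv := fun x => rfl
        right_inv := fun y => rfl }
    rw [Nat.card_congr b3, Nat.card_sigma]
    congr 1
    exact Finset.sum_congr rfl fun V _ => Nat.card_pi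
  have e2 : pqN E (fun _ _ => False) K = ∑ V : C → Fin 3 → K, ∏ a,
      Nat.card {w : Fin 3 → K // ∀ c, E a c → ∑ k, w k * V c k = 0} := by
    unfold pqN
    have b3 : {x : (A → Fin 3 → K) × (C → Fin 3 → K) //
        (∀ a c, E a c → ∑ k, x.1 a k * x.2 c k = 0) ∧ ∀ a c, False → ∑ k, x.1 a k * x.2 c k ≠ 0} ≃
          Σ V : C → Fin 3 → K, (∀ a, {w : Fin 3 → K // ∀ c, E a c → ∑ k, w k * V c k = 0}) :=
      { toFun := fun x => ⟨x.1.2, fun a => ⟨x.1.1 a, x.2.1 a⟩⟩
        invFun := fun y => ⟨(fun a => (y.2 a).1, y.1), fun a => (y.2 a).2, fun _ _ h => h.elim⟩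
        left_inv := fun x => rfl
        right_inv := fun y => rfl }
    rw [Nat.card_congr b3, Nat.card_sigma]
    exact Finset.sum_congr rfl fun V _ => Nat.card_pi
  rw [e1, e2]
  push_cast
  rw [Finset.mul_sum, Finset.mul_sum]
  refine Finset.sum_congr rfl fun V _ => ?_
  rw [mul_comm 3 (Fintype.card A), pow_mul', ← Finset.prod_pow_eq_pow_sum, ← Finset.card_univ,
    ← Finset.prod_const, ← Finset.prod_mul_distrib, ← Finset.prod_mul_distrib]
  refine Finset.prod_congr rfl fun a _ => ?_
  have h := row_dual (K := K) (E a) V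
  rw [mul_comm]
  exact_mod_cast h

end

section
variable {A C : Type} [Fintype A] [Fintype C]

theorem pqN_le (E T : A → C → Prop) (K : Type) [Field K] [Finite K] :
    pqN E T K ≤ Nat.card K ^ (3 * (Fintype.card A + Fintype.card C)) := by
  have h1 : Nat.card ((A → Fin 3 → K) × (C → Fin 3 → K)) =
      Nat.card K ^ (3 * (Fintype.card A + Fintype.card C)) := by
    have hf : Nat.card (Fin 3 → K) = Nat.card K ^ 3 := by
      rw [Nat.card_fun, Nat.card_eq_fintype_card (α := Fin 3), Fintype.card_fin]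
    rw [Nat.card_prod, Nat.card_fun (α := A), Nat.card_fun (α := C), hf,
      Nat.card_eq_fintype_card (α := A), Nat.card_eq_fintype_card (α := C),
      ← pow_mul, ← pow_mul, ← pow_add]
    congr 1
    ring
  rw [← h1]
  exact Finite.card_subtype_le _

theorem pqN_growth (E T : A → C → Prop) : Growth (fun K _ => (pqN E T K : ℤ)) := by
  refine growth_of_le (n := 3 * (Fintype.card A + Fintype.card C)) fun K _ _ => ?_
  rw [abs_of_nonneg (by positivity)]
  exact_mod_cast pqN_le E T K

/-- one more prescribed nonzero product -/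
theorem pqN_insert [DecidableEq A] [DecidableEq C] (E : A → C → Prop) (t : A × C) (T : Finset (A × C))
    (K : Type) [Field K] [Finite K] :
    (pqN E (fun i j => (i, j) ∈ insert t T) K : ℤ) = (pqN E (fun i j => (i, j) ∈ T) K : ℤ) -
      (pqN (fun i j => E i j ∨ (i, j) = t) (fun i j => (i, j) ∈ T) K : ℤ) := by
  classical
  have := Fintype.ofFinite K
  have h : pqN E (fun i j => (i, j) ∈ T) K = pqN E (fun i j => (i, j) ∈ insert t T) K +
      pqN (fun i j => E i j ∨ (i, j) = t) (fun i j => (i, j) ∈ T) K := by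
    unfold pqN
    rw [Nat.card_eq_fintype_card, Nat.card_eq_fintype_card, Nat.card_eq_fintype_card,
      Fintype.card_subtype, Fintype.card_subtype, Fintype.card_subtype,
      ← Finset.card_filter_add_card_filter_not (s := Finset.univ.filter
        (fun x : (A → Fin 3 → K) × (C → Fin 3 → K) =>
          (∀ a c, E a c → ∑ k, x.1 a k * x.2 c k = 0) ∧ ∀ a c, (a, c) ∈ T → ∑ k, x.1 a k * x.2 c k ≠ 0))
        (fun x => ∑ k, x.1 t.1 k * x.2 t.2 k ≠ 0), Finset.filter_filter, Finset.filter_filter]
    congr 2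
    · ext x
      simp only [Finset.mem_filter, Finset.mem_univ, true_and, Finset.mem_insert]
      constructor
      · rintro ⟨⟨h1, h2⟩, h3⟩
        refine ⟨h1, ?_⟩
        rintro a c (h4 | h4)
        · rw [← h4] at h3; exact h3
        · exact h2 a c h4
      · rintro ⟨h1, h2⟩
        exact ⟨⟨h1, fun a c h3 => h2 a c (Or.inr h3)⟩, h2 t.1 t.2 (Or.inl rfl)⟩
    · ext x
      simp only [Finset.mem_filter, Finset.mem_univ, true_and, not_not]
      constructor
      · rintro ⟨⟨h1, h2⟩, h3⟩
        refine ⟨?_, h2⟩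
        rintro a c (h4 | h4)
        · exact h1 a c h4
        · rw [← h4] at h3; exact h3
      · rintro ⟨h1, h2⟩
        exact ⟨⟨fun a c h3 => h1 a c (Or.inl h3), h2⟩, h1 t.1 t.2 (Or.inr rfl)⟩
  rw [h]
  push_cast
  ring

end

section
variable {P : ℕ} {𝒞 : ((K : Type) → [Field K] → ℤ) → Prop} (h𝒞 : ClosedClass P 𝒞)
include h𝒞

theorem pq_fin (h : ∀ (A C : Type) [Fintype A] [Fintype C] (Z : A → C → Prop), 𝒞 (G 3 Z))
    {A C : Type} [Fintype A] [Fintype C] [DecidableEq A] [DecidableEq C] (T : Finset (A × C)) :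
    ∀ (E : A → C → Prop), 𝒞 (fun K _ => (pqN E (fun i j => (i, j) ∈ T) K : ℤ)) := by
  classical
  induction T using Finset.induction_on with
  | empty =>
    intro E
    refine h𝒞.div (pqN_growth _ _) (Polynomial.X ^ (∑ a, Nat.card {c // E a c})) (Den.X.pow _)
      (h𝒞.congr (h𝒞.poly_mul (h A C fun a c => ¬ E a c) (Polynomial.X ^ (3 * Fintype.card A)))
        fun K _ _ _ => ?_)
    rw [Polynomial.eval_pow, Polynomial.eval_X, Polynomial.eval_pow, Polynomial.eval_X, pq_G]
    have : (fun (i : A) (j : C) => (i, j) ∈ (∅ : Finset (A × C))) = fun _ _ => False := by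
      funext i j
      simp
    rw [this]
  | insert t T _ ih =>
    intro E
    exact h𝒞.congr (h𝒞.add (ih E) (h𝒞.neg (ih fun i j => E i j ∨ (i, j) = t)))
      fun K _ _ _ => by rw [pqN_insert]; ring

theorem pq_all (h : ∀ (A C : Type) [Fintype A] [Fintype C] (Z : A → C → Prop), 𝒞 (G 3 Z))
    (A C : Type) [Fintype A] [Fintype C] (E T : A → C → Prop) :
    𝒞 (fun K _ => (pqN E T K : ℤ)) := by
  classical
  have := pq_fin h𝒞 h (Finset.univ.filter fun t : A × C => T t.1 t.2) E
  refine h𝒞.congr this fun K _ _ _ => ?_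
  have h1 : (fun (i : A) (j : C) => (i, j) ∈ Finset.univ.filter fun t : A × C => T t.1 t.2) = T := by
    funext i j
    simp
  rw [h1]

end

end Pool.Agent.Helper90.PH
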