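import Pool.Agent.Helper90.PH.Stm

/-!
# Module EQV: functions constant along a relation and zero on a set (helper2)
-/

set_option autoImplicit false

namespace Pool.Agent.Helper90.PH.EQV

theorem main : S_EQV := by
  classical
  intro X _ r z
  refine ⟨Nat.card {c : Quot r // ∀ x, Quot.mk r x = c → ¬ z x}, ?_⟩
  intro K _ _
  have : Finite (Quot r) := Quot.finite r
  rw [← Nat.card_fun]
  let g : ({c : Quot r // ∀ x, Quot.mk r x = c → ¬ z x} → K) → Quot r → K := fun f c =>
    if h : ∀ x, Quot.mk r x = c → ¬ z x then f ⟨c, h⟩ else 0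
  refine Nat.card_congr ⟨fun x c => Quot.lift x.1 x.2.1 c.1, fun f => ⟨fun i => g f (Quot.mk r i), ?_, ?_⟩,
    ?_, ?_⟩
  · intro i j h
    exact congrArg (g f) (Quot.sound h)
  · intro i hi
    exact dif_neg fun h => h i rfl hi
  · intro x
    apply Subtype.ext
    funext i
    show (if h : ∀ y, Quot.mk r y = Quot.mk r i → ¬ z y then Quot.lift x.1 x.2.1 (Quot.mk r i) else 0) =
      x.1 i
    split_ifs with h
    · rfl
    · push Not at h
      obtain ⟨y, h1, h2⟩ := h
      have h3 : Quot.lift x.1 x.2.1 (Quot.mk r y) = Quot.lift x.1 x.2.1 (Quot.mk r i) := by rw [h1]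
      have h4 : x.1 y = x.1 i := h3
      rw [← h4, x.2.2 y h2]
  · intro f
    funext c
    obtain ⟨c, hc⟩ := c
    induction c using Quot.ind with
    | mk i => exact dif_pos hc

end Pool.Agent.Helper90.PH.EQV
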