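import Mathlib

/-!
# Counting with one kernel vector on each side: statements (helper90, MP_039d94_nt)
-/

set_option autoImplicit false

namespace Pool.Agent.Helper90.PH

/-- EQV: the number of the functions `x : X → K` which are constant along the relation `r` and zero on the
set `z` is a power of the number of elements of `K`, with an exponent independent of `K`. Proof: these are
the functions on the set of the classes (`Quot r`) which vanish at the classes meeting `z`, so
`n` = number of the classes `c : Quot r` with `∀ x, Quot.mk r x = c → ¬ z x`. -/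
def S_EQV : Prop :=
  ∀ (X : Type) [Finite X] (r : X → X → Prop) (z : X → Prop),
    ∃ n : ℕ, ∀ (K : Type) [Field K] [Finite K],
      Nat.card {x : X → K // (∀ i j, r i j → x i = x j) ∧ ∀ i, z i → x i = 0} = Nat.card K ^ n

/-- SUPP: for given `v`, `w` the number of the matrices `L` with zeros at `Z`, `L v = 0` and `w L = 0` is a
power of `q`; the exponent depends only on the supports of `v` and `w` and not on `K`. Proof (may assume
`S_EQV`): let `E = {p : A × C // ¬ Z p.1 p.2}`, `φ : (E → K) → (A ⊕ C → K)` the linear map
`L ↦ (∑_c L a c v c, ∑_a L a c w a)`. By `card_dual` (module `Pool.Agent.Helper90.PG.Dual`, on origin/main: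
`Nat.card (ker φ) * q ^ #I = Nat.card E * Nat.card {l : I → K // ∀ y, ∑ i, l i * φ y i = 0}`) it is
sufficient to count the pairs `(α, β)` with `α a * v c + β c * w a = 0` for all `(a, c)` with `¬ Z a c`. Put
`α a = w a * x a` if `w a ≠ 0` (else `α a = x a`), `β c = - v c * x c` if `v c ≠ 0` (else `β c = x c`): the
conditions become, for `¬ Z a c`: `x a = x c` if `w a ≠ 0` and `v c ≠ 0`; `x a = 0` if `w a = 0` and `v c ≠ 0`;
`x c = 0` if `w a ≠ 0` and `v c = 0`; nothing if both are zero. So `S_EQV` applies; the exponent of the
quotient is nonnegative since the number of matrices is at least one (use `K = ZMod 2`, or define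
`m R S` by `Nat` subtraction and check `q ^ (a - b) * q ^ b = q ^ a` using the inequality
`q ^ b ≤ q ^ a` for one field). -/
def S_SUPP : Prop :=
  ∀ (A C : Type) [Fintype A] [Fintype C] (Z : A → C → Prop),
    ∃ m : Set C → Set A → ℕ, ∀ (K : Type) [Field K] [Finite K] (v : C → K) (w : A → K),
      Nat.card {L : Matrix A C K // (∀ a c, Z a c → L a c = 0) ∧ (∀ a, ∑ c, L a c * v c = 0) ∧
        ∀ c, ∑ a, L a c * w a = 0} = Nat.card K ^ m {c | v c ≠ 0} {a | w a ≠ 0}

/-- POLY: the number of the triples `(L, v, w)` is a polynomial in `q`. Proof (may assume `S_SUPP`): sum over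
the supports; there are `(q - 1) ^ #S` vectors with support `S`. -/
def S_POLY : Prop :=
  ∀ (A C : Type) [Fintype A] [Fintype C] (Z : A → C → Prop),
    ∃ F : Polynomial ℤ, ∀ (K : Type) [Field K] [Finite K],
      (Nat.card {x : Matrix A C K × (C → K) × (A → K) // (∀ a c, Z a c → x.1 a c = 0) ∧
        (∀ a, ∑ c, x.1 a c * x.2.1 c = 0) ∧ ∀ c, ∑ a, x.1 a c * x.2.2 a = 0} : ℤ) =
        F.eval (Nat.card K : ℤ)

end Pool.Agent.Helper90.PH
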