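import Pool.Agent.Helper90.PH.All
import Pool.Agent.Helper90.PH.Stm

/-!
# The class numbers of the pattern groups of the ordered sets with three levels
-/

set_option autoImplicit false

namespace Pool.Agent.Helper90.PH

open Matrix Module Pool.Agent.Helper90.PZ Pool.Agent.Helper90.PG Pool.Agent.E8helper17.FZ

/-- The class number is the sum of the weights. -/
theorem cls_W {A C T : Type} [Fintype A] [Fintype C] [Fintype T] [DecidableEq A] [DecidableEq C]
    [DecidableEq T] (p : T → A × C) (e : ℕ) (K : Type) [Field K] [Finite K] :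
    (Nat.card (ConjClasses (patternGroup (rel p : Ix A C T e → Ix A C T e → Prop) (rel_order p) K)) : ℤ) =
      W p e (fun _ _ => False) K := by
  have h1 := class_number (rel_order p : IsStrictOrder (Ix A C T e) (rel p)) K
  have h2 := comm_count p e K
  have h3 := card_supp (rel p : Ix A C T e → Ix A C T e → Prop) K
  rw [Nat.card_congr (suppEquiv p), Nat.card_prod, card_par] at h3
  have hcorner : Nat.card (A → C → K) = Nat.card K ^ (Fintype.card A * Fintype.card C) := by
    rw [Nat.card_fun, Nat.card_fun, Nat.card_eq_fintype_card (α := A),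
      Nat.card_eq_fintype_card (α := C), ← pow_mul, mul_comm]
  rw [hcorner] at h3
  rw [← h1, ← h3] at h2
  push_cast at h2
  have hq : (Nat.card K : ℤ) ≠ 0 := by
    have : 0 < Nat.card K := Nat.card_pos
    exact_mod_cast this.ne'
  have hne : (Nat.card K : ℤ) ^ (2 * (Fintype.card A * Fintype.card C) +
        (e * (Fintype.card A + Fintype.card C) + 2 * Fintype.card T)) ≠ 0 := pow_ne_zero _ hq
  refine mul_left_cancel₀ hne ?_
  rw [← h2]
  rw [show 2 * (Fintype.card A * Fintype.card C) + (e * (Fintype.card A + Fintype.card C) +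
      2 * Fintype.card T) = (e * (Fintype.card A + Fintype.card C) + 2 * Fintype.card T) +
      Fintype.card A * Fintype.card C + Fintype.card A * Fintype.card C by ring, pow_add, pow_add]
  ring

/-- the elements of the ordered set `P(T, e)`: `a` minimal, `c` maximal, `e` full and `#T` thin middle
elements -/
abbrev El (a c e : ℕ) (T : Finset (Fin a × Fin c)) : Type := Ix (Fin a) (Fin c) {t // t ∈ T} e

/-- The number of conjugacy classes of the pattern group of the strict partial order `R` over `K`. -/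
noncomputable def classNumber {ι : Type} [Fintype ι] [DecidableEq ι] (R : ι → ι → Prop)
    (hR : IsStrictOrder ι R) (K : Type) [Field K] : ℤ :=
  (Nat.card (ConjClasses (patternGroup R hR K)) : ℤ)

/-- the class number of the pattern group of `P(T, e)` over `K` -/
noncomputable def kP (a c e : ℕ) (T : Finset (Fin a × Fin c)) (K : Type) [Field K] : ℤ :=
  classNumber (rel (fun t : {t // t ∈ T} => t.1) : El a c e T → El a c e T → Prop) (rel_order _) K

theorem kP_eq (a c e : ℕ) (T : Finset (Fin a × Fin c)) (K : Type) [Field K] [Finite K] :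
    kP a c e T K = WT T e (fun _ _ => False) K := cls_W _ e K

/-- the explicit formula -/
theorem kP_sum (a c e : ℕ) (T : Finset (Fin a × Fin c)) (K : Type) [Field K] [Fintype K] :
    kP a c e T K = ∑ L : Matrix (Fin a) (Fin c) K, (Nat.card K : ℤ) ^
      (e * (a + c - 2 * L.rank) + 2 * Nat.card {t : Fin a × Fin c // t ∈ T ∧ L t.1 t.2 = 0}) := by
  classical
  rw [kP_eq]
  unfold WT
  rw [W_eq]
  refine Finset.sum_congr rfl fun L _ => ?_
  rw [if_pos fun _ _ h => h.elim]
  unfold wt
  have h1 : ∏ t : {t // t ∈ T}, (if L t.1.1 t.1.2 = 0 then Nat.card K * Nat.card K else 1) =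
      Nat.card K ^ (2 * Nat.card {t : Fin a × Fin c // t ∈ T ∧ L t.1 t.2 = 0}) := by
    have h5 : Nat.card {t : Fin a × Fin c // t ∈ T ∧ L t.1 t.2 = 0} =
        (T.filter fun t => L t.1 t.2 = 0).card := by
      rw [Nat.subtype_card]
      intro t
      rw [Finset.mem_filter]
    rw [Finset.prod_coe_sort T fun t => if L t.1 t.2 = 0 then Nat.card K * Nat.card K else 1,
      ← Finset.prod_filter, Finset.prod_const, ← pow_two, ← pow_mul, h5]
  rw [h1, Fintype.card_fin, Fintype.card_fin]
  have h2 := L.rank_le_card_height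
  have h3 := L.rank_le_card_width
  rw [Fintype.card_fin] at h2 h3
  have h4 : (Nat.card K ^ (a - L.rank) * Nat.card K ^ (c - L.rank)) ^ e =
      Nat.card K ^ (e * (a + c - 2 * L.rank)) := by
    rw [← pow_add, ← pow_mul]
    congr 1
    rw [mul_comm]
    congr 1
    omega
  rw [h4, pow_add]
  push_cast
  rfl

section
variable {P : ℕ} {𝒞 : ((K : Type) → [Field K] → ℤ) → Prop} (h𝒞 : ClosedClass P 𝒞)
include h𝒞

/-- **The circle of implications.** -/
theorem tfae_kP {e : ℕ} (he : 2 ≤ e) : List.TFAE [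
    ∀ (n s : ℕ) (f : Fin s → MvPolynomial (Fin n) ℤ), 𝒞 (fun K _ => (points f K : ℤ)),
    ∀ (N : ℕ) (R : Fin N → Fin N → Prop) (hR : IsStrictOrder (Fin N) R), 𝒞 (cls R hR),
    ∀ (a c : ℕ) (T : Finset (Fin a × Fin c)), 𝒞 (kP a c e T)] := by
  tfae_have 1 → 2 := fun h N R hR => cls_of_points h𝒞 h R hR
  tfae_have 2 → 3 := fun h a c T => h𝒞.congr
    (W_of_comm h𝒞 (comm_of_cls h𝒞 fun N R hR _ => h N R hR) (fun t : {t // t ∈ T} => t.1) e)
    fun K _ _ _ => (cls_W _ e K).symm
  tfae_have 3 → 1 := fun h n s f => points_of_WT h𝒞 he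
    (fun a c T => h𝒞.congr (h a c T) fun K _ _ _ => kP_eq a c e T K) f
  tfae_finish

end

/-- the bipartite graphs -/
structure Gr where
  a : ℕ
  c : ℕ
  T : Finset (Fin a × Fin c)

/-- **Every number of solutions is expressed by class numbers of the pattern groups of the ordered sets
`P(T, e)`, for each fixed `e ≥ 2`.** -/
theorem points_formula_kP {e : ℕ} (he : 2 ≤ e) {n s : ℕ} (f : Fin s → MvPolynomial (Fin n) ℤ) :
    ∃ (a t m : ℕ) (b : Fin t → ℕ) (A : Fin m → Polynomial ℤ) (j : Fin m → Gr), (∀ j, 0 < b j) ∧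
      ∀ (K : Type) [Field K] [Finite K],
        ((Nat.card K : ℤ) ^ a * ∏ j, ((Nat.card K : ℤ) ^ b j - 1)) * (points f K : ℤ) =
          ∑ i, (A i).eval (Nat.card K : ℤ) * kP (j i).a (j i).c e (j i).T K := by
  have h0 : (∀ (a c : ℕ) (T : Finset (Fin a × Fin c)), Gen (fun j : Gr => kP j.a j.c e j.T) (kP a c e T)) →
      ∀ (n s : ℕ) (f : Fin s → MvPolynomial (Fin n) ℤ),
        Gen (fun j : Gr => kP j.a j.c e j.T) (fun K _ => (points f K : ℤ)) :=
    ((tfae_kP (closed_gen' fun j : Gr => kP j.a j.c e j.T) he).out 2 0).1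
  exact (h0 (fun a c T => Gen.of (fun j : Gr => kP j.a j.c e j.T) ⟨a, c, T⟩) n s f).formula

/-! ### at most one full element -/

/-- `N` is a polynomial in the number of elements of the field -/
def IsPoly (N : (K : Type) → [Field K] → ℤ) : Prop :=
  ∃ F : Polynomial ℤ, ∀ (K : Type) [Field K] [Finite K], N K = F.eval (Nat.card K : ℤ)

theorem WT_zero_poly {A C : Type} [Fintype A] [Fintype C] (Z : A → C → Prop) :
    IsPoly (WT (∅ : Finset (A × C)) 0 Z) := by
  classical
  refine ⟨Polynomial.X ^ Nat.card {t : A × C // ¬ Z t.1 t.2}, fun K _ _ => ?_⟩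
  have := Fintype.ofFinite K
  have h1 := WT_empty 0 Z K
  rw [mul_zero, mul_zero, pow_zero, one_mul, one_mul, mul_zero] at h1
  rw [h1, G_eq, Polynomial.eval_pow, Polynomial.eval_X]
  simp only [pow_zero]
  rw [← Finset.sum_filter, Finset.sum_const, nsmul_eq_mul, mul_one]
  have h2 : (Finset.univ.filter fun l : Matrix A C K => ∀ a c, Z a c → l a c = 0).card =
      Nat.card {l : Matrix A C K // ∀ a c, Z a c → l a c = 0} := by
    rw [Nat.card_eq_fintype_card, Fintype.card_subtype]
  rw [h2]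
  have e : {l : Matrix A C K // ∀ a c, Z a c → l a c = 0} ≃ ({t : A × C // ¬ Z t.1 t.2} → K) :=
    { toFun := fun l t => l.1 t.1.1 t.1.2
      invFun := fun f => ⟨fun a c => if h : ¬ Z a c then f ⟨(a, c), h⟩ else 0,
        fun a c h => dif_neg (not_not.2 h)⟩
      left_inv := fun l => by
        apply Subtype.ext
        funext a c
        show (if h : ¬ Z a c then l.1 a c else 0) = l.1 a c
        split_ifs with h
        · exact (l.2 a c h).symm
        · rfl
      right_inv := fun f => by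
        funext t
        exact dif_pos t.2 }
  rw [Nat.card_congr e, Nat.card_fun]
  push_cast
  rfl

theorem WT_one_poly (hP : S_POLY) {A C : Type} [Fintype A] [Fintype C] (Z : A → C → Prop) :
    IsPoly (WT (∅ : Finset (A × C)) 1 Z) := by
  classical
  obtain ⟨F, hF⟩ := hP A C Z
  refine ⟨F, fun K _ _ => ?_⟩
  have := Fintype.ofFinite K
  rw [← hF K]
  unfold WT
  rw [W_eq]
  have e : {x : Matrix A C K × (C → K) × (A → K) // (∀ a c, Z a c → x.1 a c = 0) ∧
        (∀ a, ∑ c, x.1 a c * x.2.1 c = 0) ∧ ∀ c, ∑ a, x.1 a c * x.2.2 a = 0} ≃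
      Σ L : {L : Matrix A C K // ∀ a c, Z a c → L a c = 0},
        ({v : A → K // ∀ c, ∑ a, L.1 a c * v a = 0} × {w : C → K // ∀ a, ∑ c, L.1 a c * w c = 0}) :=
    { toFun := fun x => ⟨⟨x.1.1, x.2.1⟩, ⟨x.1.2.2, x.2.2.2⟩, ⟨x.1.2.1, x.2.2.1⟩⟩
      invFun := fun y => ⟨(y.1.1, y.2.2.1, y.2.1.1), y.1.2, y.2.2.2, y.2.1.2⟩
      left_inv := fun x => rfl
      right_inv := fun y => rfl }
  rw [Nat.card_congr e, Nat.card_sigma]
  push_cast
  have h1 : ∀ L : {L : Matrix A C K // ∀ a c, Z a c → L a c = 0},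
      (Nat.card ({v : A → K // ∀ c, ∑ a, L.1 a c * v a = 0} ×
        {w : C → K // ∀ a, ∑ c, L.1 a c * w c = 0}) : ℤ) =
      (wt (fun t : {t // t ∈ (∅ : Finset (A × C))} => t.1) 1 L.1 : ℤ) := by
    intro L
    rw [Nat.card_prod, card_ker' L.1, card_ker L.1]
    unfold wt
    rw [pow_one, Finset.univ_eq_empty, Finset.prod_empty, mul_one]
  rw [Finset.sum_congr rfl fun L _ => h1 L, ← Finset.sum_filter,
    Finset.sum_subtype (p := fun L : Matrix A C K => ∀ a c, Z a c → L a c = 0)
        (Finset.univ.filter fun L : Matrix A C K => ∀ a c, Z a c → L a c = 0)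
        (fun L => by rw [Finset.mem_filter]; exact ⟨fun h => h.2, fun h => ⟨Finset.mem_univ _, h⟩⟩)
        (fun L => (wt (fun t : {t // t ∈ (∅ : Finset (A × C))} => t.1) 1 L : ℤ))]

theorem WT_poly {A C : Type} [Fintype A] [Fintype C] {e : ℕ}
    (h : ∀ Z : A → C → Prop, IsPoly (WT (∅ : Finset (A × C)) e Z)) (T : Finset (A × C)) :
    ∀ Z : A → C → Prop, IsPoly (WT T e Z) := by
  classical
  induction T using Finset.induction_on with
  | empty => exact h
  | insert t₀ T ht ih =>
    intro Z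
    obtain ⟨F, hF⟩ := ih Z
    obtain ⟨F', hF'⟩ := ih fun a c => Z a c ∨ (a, c) = t₀
    refine ⟨F + (Polynomial.X ^ 2 - 1) * F', fun K _ _ => ?_⟩
    rw [WT_insert T ht, hF K, hF' K]
    simp

/-- **The class numbers are polynomials for `e ≤ 1`.** -/
theorem kP_poly (hP : S_POLY) {e : ℕ} (he : e ≤ 1) (a c : ℕ) (T : Finset (Fin a × Fin c)) :
    IsPoly (kP a c e T) := by
  have h : ∀ Z : Fin a → Fin c → Prop, IsPoly (WT (∅ : Finset (Fin a × Fin c)) e Z) := by
    intro Z
    rcases Nat.le_one_iff_eq_zero_or_eq_one.1 he with h | h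
    · subst h; exact WT_zero_poly Z
    · subst h; exact WT_one_poly hP Z
  obtain ⟨F, hF⟩ := WT_poly h T fun _ _ => False
  exact ⟨F, fun K _ _ => by rw [kP_eq]; exact hF K⟩

end Pool.Agent.Helper90.PH
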