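import Pool.Agent.Helper90.PH.Conf
import Mathlib.LinearAlgebra.Matrix.GeneralLinearGroup.Card

/-!
# Configurations with a frame
-/

set_option autoImplicit false

namespace Pool.Agent.Helper90.PH

open Matrix Module Pool.Agent.Helper90.PZ Pool.Agent.Helper90.PG Pool.Agent.E8helper17.FZ

section
variable {Pt Ln : Type} [Fintype Pt] [Fintype Ln]

/-- the conditions of a shape -/
def Cond (S : Shape Pt Ln) {K : Type} [Field K] (x : (Fin 3 ⊕ Pt → Fin 3 → K) × (Fin 3 ⊕ Ln → Fin 3 → K)) :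
    Prop :=
  (∀ a c, S.Z a c → ∑ k, x.1 a k * x.2 c k = 0) ∧ ∀ a c, S.T a c → ∑ k, x.1 a k * x.2 c k ≠ 0

theorem dot_inv {K : Type} [Field K] (P : GL (Fin 3) K) (w v : Fin 3 → K) :
    ∑ k, (w ᵥ* (P⁻¹ : GL (Fin 3) K).1) k * (P.1 *ᵥ v) k = ∑ k, w k * v k := by
  have h1 : (w ᵥ* (P⁻¹ : GL (Fin 3) K).1) ⬝ᵥ (P.1 *ᵥ v) = w ⬝ᵥ v := by
    rw [dotProduct_mulVec, vecMul_vecMul, Units.inv_mul, vecMul_one]
  exact h1

theorem dot_inv' {K : Type} [Field K] (P : GL (Fin 3) K) (w v : Fin 3 → K) :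
    ∑ k, (w ᵥ* P.1) k * ((P⁻¹ : GL (Fin 3) K).1 *ᵥ v) k = ∑ k, w k * v k := by
  have h1 : (w ᵥ* P.1) ⬝ᵥ ((P⁻¹ : GL (Fin 3) K).1 *ᵥ v) = w ⬝ᵥ v := by
    rw [dotProduct_mulVec, vecMul_vecMul, Units.mul_inv, vecMul_one]
  exact h1

theorem cond_det (S : Shape Pt Ln) {K : Type} [Field K]
    {x : (Fin 3 ⊕ Pt → Fin 3 → K) × (Fin 3 ⊕ Ln → Fin 3 → K)} (hx : Cond S x) :
    (Matrix.of fun c k => x.1 (Sum.inl c) k : Matrix (Fin 3) (Fin 3) K).det ≠ 0 := by
  classical
  have h1 : (Matrix.of fun c k => x.1 (Sum.inl c) k : Matrix (Fin 3) (Fin 3) K) *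
      (Matrix.of fun k c => x.2 (Sum.inl c) k : Matrix (Fin 3) (Fin 3) K) =
      diagonal fun c => ∑ k, x.1 (Sum.inl c) k * x.2 (Sum.inl c) k := by
    ext a b
    rw [mul_apply]
    by_cases hab : a = b
    · subst hab
      rw [diagonal_apply_eq]
      rfl
    · rw [diagonal_apply_ne _ hab]
      exact hx.1 (Sum.inl a) (Sum.inl b) hab
  have h2 := congrArg Matrix.det h1
  rw [det_mul, det_diagonal] at h2
  intro h3
  rw [h3, zero_mul] at h2
  exact Finset.prod_ne_zero_iff.2 (fun c _ => hx.2 (Sum.inl c) (Sum.inl c) rfl) h2.symm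

/-- the frame is the standard basis -/
def Std {K : Type} [Field K] (x : (Fin 3 ⊕ Pt → Fin 3 → K) × (Fin 3 ⊕ Ln → Fin 3 → K)) : Prop :=
  ∀ c, x.1 (Sum.inl c) = fun k => (1 : Matrix (Fin 3) (Fin 3) K) c k

/-- reduction to the standard frame -/
noncomputable def frameEquiv (S : Shape Pt Ln) (K : Type) [Field K] :
    {x : (Fin 3 ⊕ Pt → Fin 3 → K) × (Fin 3 ⊕ Ln → Fin 3 → K) // Cond S x} ≃
      GL (Fin 3) K × {x : (Fin 3 ⊕ Pt → Fin 3 → K) × (Fin 3 ⊕ Ln → Fin 3 → K) // Cond S x ∧ Std x} where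
  toFun x :=
    let P : GL (Fin 3) K := GeneralLinearGroup.mkOfDetNeZero _ (cond_det S x.2)
    (P, ⟨(fun a => x.1.1 a ᵥ* (P⁻¹ : GL (Fin 3) K).1, fun c => P.1 *ᵥ x.1.2 c), by
      refine ⟨⟨fun a c h => ?_, fun a c h => ?_⟩, fun c => ?_⟩
      · show ∑ k, (x.1.1 a ᵥ* (P⁻¹ : GL (Fin 3) K).1) k * (P.1 *ᵥ x.1.2 c) k = 0
        rw [dot_inv]
        exact x.2.1 a c h
      · show ∑ k, (x.1.1 a ᵥ* (P⁻¹ : GL (Fin 3) K).1) k * (P.1 *ᵥ x.1.2 c) k ≠ 0
        rw [dot_inv]
        exact x.2.2 a c h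
      · have h1 : P.1 * (P⁻¹ : GL (Fin 3) K).1 = 1 := P.mul_inv
        funext k
        have h2 := congrFun (congrFun h1 c) k
        rw [mul_apply] at h2
        exact h2⟩)
  invFun y := ⟨(fun a => y.2.1.1 a ᵥ* y.1.1, fun c => (y.1⁻¹ : GL (Fin 3) K).1 *ᵥ y.2.1.2 c), by
    refine ⟨fun a c h => ?_, fun a c h => ?_⟩
    · show ∑ k, (y.2.1.1 a ᵥ* y.1.1) k * ((y.1⁻¹ : GL (Fin 3) K).1 *ᵥ y.2.1.2 c) k = 0
      rw [dot_inv']
      exact y.2.2.1.1 a c h
    · show ∑ k, (y.2.1.1 a ᵥ* y.1.1) k * ((y.1⁻¹ : GL (Fin 3) K).1 *ᵥ y.2.1.2 c) k ≠ 0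
      rw [dot_inv']
      exact y.2.2.1.2 a c h⟩
  left_inv x := by
    apply Subtype.ext
    refine Prod.ext ?_ ?_
    · funext a
      show (x.1.1 a ᵥ* ((GeneralLinearGroup.mkOfDetNeZero _ (cond_det S x.2))⁻¹ : GL (Fin 3) K).1) ᵥ*
        (GeneralLinearGroup.mkOfDetNeZero _ (cond_det S x.2) : GL (Fin 3) K).1 = x.1.1 a
      rw [vecMul_vecMul, Units.inv_mul, vecMul_one]
    · funext c
      show ((GeneralLinearGroup.mkOfDetNeZero _ (cond_det S x.2))⁻¹ : GL (Fin 3) K).1 *ᵥ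
        ((GeneralLinearGroup.mkOfDetNeZero _ (cond_det S x.2) : GL (Fin 3) K).1 *ᵥ x.1.2 c) = x.1.2 c
      rw [mulVec_mulVec, Units.inv_mul, one_mulVec]
  right_inv y := by
    obtain ⟨P, ⟨⟨W, V⟩, hc, hs⟩⟩ := y
    have hP : (GeneralLinearGroup.mkOfDetNeZero _ (cond_det S (x := (fun a => W a ᵥ* P.1,
        fun c => (P⁻¹ : GL (Fin 3) K).1 *ᵥ V c)) ⟨fun a c h => by
          show ∑ k, (W a ᵥ* P.1) k * ((P⁻¹ : GL (Fin 3) K).1 *ᵥ V c) k = 0
          rw [dot_inv']; exact hc.1 a c h, fun a c h => by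
          show ∑ k, (W a ᵥ* P.1) k * ((P⁻¹ : GL (Fin 3) K).1 *ᵥ V c) k ≠ 0
          rw [dot_inv']; exact hc.2 a c h⟩) : GL (Fin 3) K) = P := by
      apply Units.ext
      ext c k
      show (W (Sum.inl c) ᵥ* P.1) k = P.1 c k
      have h1 : W (Sum.inl c) = fun k => (1 : Matrix (Fin 3) (Fin 3) K) c k := hs c
      rw [h1]
      have h2 : ((1 : Matrix (Fin 3) (Fin 3) K) * P.1) c k = P.1 c k := by rw [one_mul]
      exact h2
    refine Prod.ext hP (Subtype.ext (Prod.ext ?_ ?_))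
    · funext a
      show (W a ᵥ* P.1) ᵥ* ((GeneralLinearGroup.mkOfDetNeZero _ _ : GL (Fin 3) K)⁻¹ : GL (Fin 3) K).1 = W a
      rw [hP, vecMul_vecMul, Units.mul_inv, vecMul_one]
    · funext c
      show (GeneralLinearGroup.mkOfDetNeZero _ _ : GL (Fin 3) K).1 *ᵥ ((P⁻¹ : GL (Fin 3) K).1 *ᵥ V c) = V c
      rw [hP, mulVec_mulVec, Units.mul_inv, one_mulVec]

theorem std_dot {K : Type} [Field K] (c : Fin 3) (v : Fin 3 → K) :
    ∑ k, (1 : Matrix (Fin 3) (Fin 3) K) c k * v k = v c := by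
  have h1 : ((1 : Matrix (Fin 3) (Fin 3) K) *ᵥ v) c = v c := by rw [one_mulVec]
  exact h1

/-- the configurations with the standard frame -/
noncomputable def stdEquiv (S : Shape Pt Ln) (K : Type) [Field K] :
    {x : (Fin 3 ⊕ Pt → Fin 3 → K) × (Fin 3 ⊕ Ln → Fin 3 → K) // Cond S x ∧ Std x} ≃
      (Fin 3 → Kˣ) × {x : (Pt → Fin 3 → K) × (Ln → Fin 3 → K) // IsCfg S x.1 x.2} := by
  classical
  have key : ∀ (x : (Fin 3 ⊕ Pt → Fin 3 → K) × (Fin 3 ⊕ Ln → Fin 3 → K)), Std x → ∀ c b,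
      ∑ k, x.1 (Sum.inl c) k * x.2 b k = x.2 b c := by
    intro x hx c b
    rw [hx c]
    exact std_dot c _
  have hV : ∀ (x : (Fin 3 ⊕ Pt → Fin 3 → K) × (Fin 3 ⊕ Ln → Fin 3 → K)), Cond S x → Std x → ∀ c k,
      k ≠ c → x.2 (Sum.inl c) k = 0 := by
    intro x hx hs c k hk
    rw [← key x hs k (Sum.inl c)]
    exact hx.1 (Sum.inl k) (Sum.inl c) hk
  have hW : ∀ (x : (Fin 3 ⊕ Pt → Fin 3 → K) × (Fin 3 ⊕ Ln → Fin 3 → K)), Cond S x → Std x → ∀ i c,
      ∑ k, x.1 (Sum.inr i) k * x.2 (Sum.inl c) k = x.1 (Sum.inr i) c * x.2 (Sum.inl c) c := by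
    intro x hx hs i c
    refine Finset.sum_eq_single c (fun k _ hk => ?_) (fun h => absurd (Finset.mem_univ c) h)
    rw [hV x hx hs c k hk, mul_zero]
  have hn : ∀ (x : (Fin 3 ⊕ Pt → Fin 3 → K) × (Fin 3 ⊕ Ln → Fin 3 → K)), Cond S x → Std x → ∀ c,
      x.2 (Sum.inl c) c ≠ 0 := by
    intro x hx hs c
    rw [← key x hs c (Sum.inl c)]
    exact hx.2 (Sum.inl c) (Sum.inl c) rfl
  exact
    { toFun := fun x => (fun c => Units.mk0 (x.1.2 (Sum.inl c) c) (hn x.1 x.2.1 x.2.2 c),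
        ⟨(fun i => x.1.1 (Sum.inr i), fun j => x.1.2 (Sum.inr j)), by
          obtain ⟨x, hx, hs⟩ := x
          refine ⟨fun i c h => ?_, fun i c h => ?_, fun j c h => ?_, fun j c h => ?_, fun i j h => ?_⟩
          · have h1 := hx.1 (Sum.inr i) (Sum.inl c) h
            rw [hW x hx hs] at h1
            exact (mul_eq_zero.1 h1).resolve_right (hn x hx hs c)
          · have h1 := hx.2 (Sum.inr i) (Sum.inl c) h
            rw [hW x hx hs] at h1
            exact (mul_ne_zero_iff.1 h1).1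
          · have h1 := hx.1 (Sum.inl c) (Sum.inr j) h
            rw [key x hs] at h1
            exact h1
          · have h1 := hx.2 (Sum.inl c) (Sum.inr j) h
            rw [key x hs] at h1
            exact h1
          · exact hx.1 (Sum.inr i) (Sum.inr j) h⟩)
      invFun := fun y => ⟨(Sum.elim (fun c k => (1 : Matrix (Fin 3) (Fin 3) K) c k) y.2.1.1,
          Sum.elim (fun c k => diagonal (fun c => (y.1 c : K)) k c) y.2.1.2), by
          obtain ⟨t, ⟨⟨p, l⟩, h1, h2, h3, h4, h5⟩⟩ := y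
          have hs : Std ((Sum.elim (fun c k => (1 : Matrix (Fin 3) (Fin 3) K) c k) p,
              Sum.elim (fun c k => diagonal (fun c => (t c : K)) k c) l) :
              (Fin 3 ⊕ Pt → Fin 3 → K) × (Fin 3 ⊕ Ln → Fin 3 → K)) := fun c => rfl
          have hp : ∀ i c, ∑ k, p i k * diagonal (fun c => (t c : K)) k c = p i c * (t c : K) := by
            intro i c
            rw [Finset.sum_eq_single c (fun k _ hk => by rw [diagonal_apply_ne _ hk, mul_zero])
              (fun h => absurd (Finset.mem_univ c) h), diagonal_apply_eq]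
          refine ⟨⟨?_, ?_⟩, hs⟩
          · rintro (a | a) (b | b) h
            · refine (key _ hs a (Sum.inl b)).trans ?_
              exact diagonal_apply_ne (fun c => (t c : K)) h
            · exact (key _ hs a (Sum.inr b)).trans (h3 b a h)
            · refine (hp a b).trans ?_
              have h1' : p a b = 0 := h1 a b h
              rw [h1', zero_mul]
            · exact h5 a b h
          · rintro (a | a) (b | b) h
            · have hab : a = b := h
              subst hab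
              refine fun h0 => (t a).ne_zero ?_
              have := (key _ hs a (Sum.inl a)).symm.trans h0
              rw [← this]
              exact (diagonal_apply_eq (fun c => (t c : K)) a).symm
            · exact fun h0 => h4 b a h ((key _ hs a (Sum.inr b)).symm.trans h0)
            · exact fun h0 => mul_ne_zero (h2 a b h) (t b).ne_zero ((hp a b).symm.trans h0)
            · exact h.elim⟩
      left_inv := fun x => by
        obtain ⟨x, hx, hs⟩ := x
        apply Subtype.ext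
        refine Prod.ext ?_ ?_
        · funext a
          rcases a with c | i
          · exact (hs c).symm
          · rfl
        · funext b
          rcases b with c | j
          · funext k
            show diagonal (fun c => x.2 (Sum.inl c) c) k c = x.2 (Sum.inl c) k
            by_cases hk : k = c
            · subst hk
              rw [diagonal_apply_eq]
            · rw [diagonal_apply_ne _ hk, hV x hx hs c k hk]
          · rfl
      right_inv := fun y => by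
        obtain ⟨t, ⟨⟨p, l⟩, h⟩⟩ := y
        refine Prod.ext ?_ rfl
        funext c
        apply Units.ext
        show diagonal (fun c => (t c : K)) c c = (t c : K)
        rw [diagonal_apply_eq] }

theorem pq_cfg (S : Shape Pt Ln) (K : Type) [Field K] [Finite K] :
    (pqN S.Z S.T K : ℤ) = ((gp 3 3).eval (Nat.card K : ℤ) * ((Nat.card K : ℤ) - 1) ^ 3) *
      (cfgN S K : ℤ) := by
  classical
  have := Fintype.ofFinite K
  have h1 : pqN S.Z S.T K = Nat.card (GL (Fin 3) K) * (Nat.card (Fin 3 → Kˣ) * cfgN S K) := by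
    unfold pqN cfgN
    rw [← Nat.card_prod, ← Nat.card_prod]
    exact Nat.card_congr ((frameEquiv S K).trans ((Equiv.refl _).prodCongr (stdEquiv S K)))
  have h2 : (Nat.card (GL (Fin 3) K) : ℤ) = (gp 3 3).eval (Nat.card K : ℤ) := by
    rw [gp_eval, Matrix.card_GL_field, Finset.prod_range]
    push_cast
    refine Finset.prod_congr rfl fun i _ => ?_
    rw [Nat.cast_sub, Nat.card_eq_fintype_card]
    · push_cast; rfl
    · exact Nat.pow_le_pow_right Fintype.card_pos (by omega)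
  have h3 : (Nat.card (Fin 3 → Kˣ) : ℤ) = ((Nat.card K : ℤ) - 1) ^ 3 := by
    rw [Nat.card_fun, Nat.card_units, Nat.card_eq_fintype_card (α := Fin 3), Fintype.card_fin]
    push_cast
    rw [Nat.cast_sub Nat.card_pos]
    push_cast
    rfl
  rw [h1]
  push_cast
  rw [h2, h3]
  ring

end

end Pool.Agent.Helper90.PH
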