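import Pool.Agent.Helper90.PH.Fin

/-!
# Names for the statements about the class numbers of the pattern groups of bipartite graphs (helper90)
-/

set_option autoImplicit false

namespace Pool.Agent.Helper90.PH

open Pool.Agent.Helper90.PZ Pool.Agent.Helper90.PG Pool.Agent.E8helper17.FZ

/-- The sum `∑ q ^ (e (a + c - 2 rank L) + 2 #{t ∈ T : L_t = 0})` over all the `a × c` matrices `L` over
`K`, with `q` the number of elements of `K`. -/
noncomputable def rankSum (a c e : ℕ) (T : Finset (Fin a × Fin c)) (K : Type) [Field K] [Fintype K] : ℤ :=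
  ∑ L : Matrix (Fin a) (Fin c) K, (Nat.card K : ℤ) ^
    (e * (a + c - 2 * L.rank) + 2 * Nat.card {t : Fin a × Fin c // t ∈ T ∧ L t.1 t.2 = 0})

/-- On finite fields `N` is a polynomial in the number of elements of the field. -/
def IsPolynomial (N : (K : Type) → [Field K] → ℤ) : Prop :=
  ∃ F : Polynomial ℤ, ∀ (K : Type) [Field K] [Finite K], N K = F.eval (Nat.card K : ℤ)

/-- `N` is expressed by the class numbers `kP _ _ e _`: for all finite fields `K`, with `q` elements,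
`q ^ a ∏ⱼ (q ^ bⱼ - 1) · N(K) = ∑ᵢ Aᵢ(q) · kP xᵢ yᵢ e Tᵢ K`, where `bⱼ > 0` and where `a`, `bⱼ`, the
polynomials `Aᵢ` and `xᵢ`, `yᵢ`, `Tᵢ` do not depend on `K`. -/
def Expressed (e : ℕ) (N : (K : Type) → [Field K] → ℤ) : Prop :=
  ∃ (a t m : ℕ) (b : Fin t → ℕ) (A : Fin m → Polynomial ℤ) (x y : Fin m → ℕ)
    (T : ∀ i, Finset (Fin (x i) × Fin (y i))),
    (∀ j, 0 < b j) ∧ ∀ (K : Type) [Field K] [Finite K],
      ((Nat.card K : ℤ) ^ a * ∏ j, ((Nat.card K : ℤ) ^ b j - 1)) * N K =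
        ∑ i, (A i).eval (Nat.card K : ℤ) * kP (x i) (y i) e (T i) K

end Pool.Agent.Helper90.PH
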