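import Pool.Agent.Helper90.PH.Stm

/-!
# The number of the triples is a polynomial (helper71)
-/

set_option autoImplicit false
set_option linter.unusedSectionVars false

namespace Pool.Agent.Helper90.PH.POLY

open Finset

/-- Vectors with a given support. -/
noncomputable def suppEquiv {C K : Type} [Field K] (S : Set C) :
    {v : C → K // {c | v c ≠ 0} = S} ≃ (S → Kˣ) where
  toFun v := fun c => Units.mk0 (v.1 c) (by
    have h : (c : C) ∈ {c | v.1 c ≠ 0} := by
      rw [v.2]
      exact c.2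
    exact h)
  invFun f := ⟨fun c => by
      classical
      exact if h : c ∈ S then (f ⟨c, h⟩ : K) else 0, by
    classical
    ext c
    show (if h : c ∈ S then (f ⟨c, h⟩ : K) else 0) ≠ 0 ↔ c ∈ S
    by_cases h : c ∈ S
    · rw [dif_pos h]
      exact ⟨fun _ => h, fun _ => (f ⟨c, h⟩).ne_zero⟩
    · rw [dif_neg h]
      exact ⟨fun h0 => absurd rfl h0, fun h0 => absurd h0 h⟩⟩
  left_inv v := by
    classical
    apply Subtype.ext
    funext c
    show (if h : c ∈ S then v.1 c else 0) = v.1 c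
    by_cases h : c ∈ S
    · rw [dif_pos h]
    · rw [dif_neg h]
      by_contra h0
      apply h
      rw [← v.2]
      exact fun h1 => h0 h1.symm
  right_inv f := by
    classical
    funext c
    apply Units.ext
    show (if h : (c : C) ∈ S then (f ⟨c, h⟩ : K) else 0) = f c
    rw [dif_pos c.2]

theorem card_supp {C K : Type} [Fintype C] [Field K] [Finite K] (S : Set C) :
    Nat.card {v : C → K // {c | v c ≠ 0} = S} = (Nat.card K - 1) ^ S.ncard := by
  classical
  rw [Nat.card_congr (suppEquiv S), Nat.card_fun, Nat.card_units]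
  rfl

open Classical in
theorem card_sum {C K : Type} [Fintype C] [Field K] [Fintype K] (F : Set C → ℤ) :
    ∑ v : C → K, F {c | v c ≠ 0} = ∑ S : Set C, ((Nat.card K : ℤ) - 1) ^ S.ncard * F S := by
  have h1 : ∀ v : C → K, F {c | v c ≠ 0} =
      ∑ S : Set C, if {c | v c ≠ 0} = S then F S else 0 := by
    intro v
    rw [Finset.sum_ite_eq]
    simp
  rw [Finset.sum_congr rfl fun v _ => h1 v, Finset.sum_comm]
  apply Finset.sum_congr rfl
  intro S _
  rw [← Finset.sum_filter, Finset.sum_const, nsmul_eq_mul]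
  congr 1
  have h2 : ((univ.filter fun v : C → K => {c | v c ≠ 0} = S).card) =
      (Nat.card K - 1) ^ S.ncard := by
    rw [← card_supp (K := K) S, Nat.card_eq_fintype_card, Fintype.card_subtype]
  rw [h2, Nat.cast_pow, Nat.cast_sub (Nat.one_le_iff_ne_zero.2 Nat.card_pos.ne'), Nat.cast_one]

theorem main : S_SUPP → S_POLY := by
  intro hS A C _ _ Z
  classical
  obtain ⟨m, hm⟩ := hS A C Z
  refine ⟨∑ S : Set C, (Polynomial.X - 1) ^ S.ncard *
    ∑ R : Set A, (Polynomial.X - 1) ^ R.ncard * Polynomial.X ^ m S R, ?_⟩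
  intro K _ _
  have := Fintype.ofFinite K
  let P : Matrix A C K → (C → K) → (A → K) → Prop := fun L v w =>
    (∀ a c, Z a c → L a c = 0) ∧ (∀ a, ∑ c, L a c * v c = 0) ∧ ∀ c, ∑ a, L a c * w a = 0
  have e : {x : Matrix A C K × (C → K) × (A → K) // (∀ a c, Z a c → x.1 a c = 0) ∧
        (∀ a, ∑ c, x.1 a c * x.2.1 c = 0) ∧ ∀ c, ∑ a, x.1 a c * x.2.2 a = 0} ≃
      Σ v : C → K, Σ w : A → K, {L : Matrix A C K // (∀ a c, Z a c → L a c = 0) ∧
        (∀ a, ∑ c, L a c * v c = 0) ∧ ∀ c, ∑ a, L a c * w a = 0} :=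
    { toFun := fun x => ⟨x.1.2.1, x.1.2.2, x.1.1, x.2⟩
      invFun := fun s => ⟨(s.2.2.1, s.1, s.2.1), s.2.2.2⟩
      left_inv := fun x => rfl
      right_inv := fun s => rfl }
  rw [Nat.card_congr e, Nat.card_sigma]
  simp only [Nat.card_sigma, hm]
  push_cast
  have h1 : ∀ v : C → K, (∑ w : A → K, (Nat.card K : ℤ) ^ m {c | v c ≠ 0} {a | w a ≠ 0}) =
      ∑ R : Set A, ((Nat.card K : ℤ) - 1) ^ R.ncard * (Nat.card K : ℤ) ^ m {c | v c ≠ 0} R :=
    fun v => card_sum (fun R => (Nat.card K : ℤ) ^ m {c | v c ≠ 0} R)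
  rw [Finset.sum_congr rfl fun v _ => h1 v]
  rw [card_sum (K := K) (fun S : Set C => ∑ R : Set A, ((Nat.card K : ℤ) - 1) ^ R.ncard *
    (Nat.card K : ℤ) ^ m S R)]
  simp [Polynomial.eval_finsetSum]

end Pool.Agent.Helper90.PH.POLY
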