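import Pool.Agent.Helper90.PG.Final

/-!
# Sums of powers of the numbers of kernel vectors
-/

set_option autoImplicit false

namespace Pool.Agent.Helper90.PH

open Matrix Module Pool.Agent.Helper90.PZ Pool.Agent.Helper90.PG Pool.Agent.E8helper17.FZ

section
variable {A C : Type} [Fintype A] [Fintype C]

/-- the number of kernel vectors -/
noncomputable def kn {K : Type} [Field K] (L : Matrix A C K) : ℕ :=
  Nat.card {w : C → K // ∀ a, ∑ c, L a c * w c = 0}

/-- the number of kernel vectors that are orthogonal to `μ` -/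
noncomputable def knr {K : Type} [Field K] (L : Matrix A C K) (μ : C → K) : ℕ :=
  Nat.card {w : C → K // (∀ a, ∑ c, L a c * w c = 0) ∧ ∑ c, μ c * w c = 0}

/-- the kernel as a subspace -/
def kerS {K : Type} [Field K] (L : Matrix A C K) : Submodule K (C → K) where
  carrier := {w | ∀ a, ∑ c, L a c * w c = 0}
  add_mem' := by
    intro v w hv hw a
    have h1 : ∑ c, L a c * (v + w) c = ∑ c, L a c * v c + ∑ c, L a c * w c := by
      rw [← Finset.sum_add_distrib]
      exact Finset.sum_congr rfl fun c _ => by rw [Pi.add_apply, mul_add]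
    rw [h1, hv a, hw a, add_zero]
  zero_mem' := fun a => Finset.sum_eq_zero fun c _ => by rw [Pi.zero_apply, mul_zero]
  smul_mem' := by
    intro t w hw a
    have h1 : ∑ c, L a c * (t • w) c = t * ∑ c, L a c * w c := by
      rw [Finset.mul_sum]
      exact Finset.sum_congr rfl fun c _ => by rw [Pi.smul_apply, smul_eq_mul]; ring
    rw [h1, hw a, mul_zero]

theorem knr_mul {K : Type} [Field K] [Finite K] (L : Matrix A C K) (μ : C → K)
    (h : ¬ ∀ w : C → K, (∀ a, ∑ c, L a c * w c = 0) → ∑ c, μ c * w c = 0) :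
    knr L μ * Nat.card K = kn L := by
  classical
  let φ : kerS L →ₗ[K] (Unit → K) :=
    { toFun := fun w _ => ∑ c, μ c * w.1 c
      map_add' := by
        intro v w
        funext _
        show ∑ c, μ c * (v.1 + w.1) c = ∑ c, μ c * v.1 c + ∑ c, μ c * w.1 c
        rw [← Finset.sum_add_distrib]
        exact Finset.sum_congr rfl fun c _ => by rw [Pi.add_apply, mul_add]
      map_smul' := by
        intro t w
        funext _
        show ∑ c, μ c * (t • w.1) c = t • ∑ c, μ c * w.1 c
        rw [smul_eq_mul, Finset.mul_sum]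
        exact Finset.sum_congr rfl fun c _ => by rw [Pi.smul_apply, smul_eq_mul]; ring }
  have h1 := card_dual φ
  have h2 : Nat.card {y : kerS L // φ y = 0} = knr L μ := by
    unfold knr
    refine Nat.card_congr
      { toFun := fun y => ⟨y.1.1, y.1.2, congrFun y.2 ()⟩
        invFun := fun w => ⟨⟨w.1, w.2.1⟩, by funext _; exact w.2.2⟩
        left_inv := fun y => rfl
        right_inv := fun w => rfl }
  have h3 : Nat.card {l : Unit → K // ∀ y, ∑ i, l i * φ y i = 0} = 1 := by
    have : Unique {l : Unit → K // ∀ y, ∑ i, l i * φ y i = 0} :=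
      { default := ⟨0, fun y => by simp⟩
        uniq := by
          rintro ⟨l, hl⟩
          apply Subtype.ext
          funext u
          show l u = 0
          by_contra hne
          apply h
          intro w hw
          have h4 := hl ⟨w, hw⟩
          rw [Finset.univ_unique, Finset.sum_singleton] at h4
          exact (mul_eq_zero.1 h4).resolve_left hne }
    exact Nat.card_unique
  rw [h2, h3, Fintype.card_unit, pow_one, mul_one] at h1
  exact h1

theorem knr_eq {K : Type} [Field K] [Finite K] (L : Matrix A C K) (μ : C → K)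
    (h : ∀ w : C → K, (∀ a, ∑ c, L a c * w c = 0) → ∑ c, μ c * w c = 0) : knr L μ = kn L :=
  Nat.card_congr (Equiv.subtypeEquivRight fun w => ⟨fun h1 => h1.1, fun h1 => ⟨h1, h w h1⟩⟩)

theorem card_kill {K : Type} [Field K] [Finite K] (L : Matrix A C K) :
    Nat.card {μ : C → K // ∀ w : C → K, (∀ a, ∑ c, L a c * w c = 0) → ∑ c, μ c * w c = 0} * kn L =
      Nat.card K ^ Fintype.card C := by
  classical
  have h1 := card_dual (kerS L).subtype
  have h2 : Nat.card {y : kerS L // (kerS L).subtype y = 0} = 1 := by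
    have : Unique {y : kerS L // (kerS L).subtype y = 0} :=
      { default := ⟨0, map_zero _⟩
        uniq := by
          rintro ⟨y, hy⟩
          apply Subtype.ext
          exact Subtype.ext hy }
    exact Nat.card_unique
  rw [h2, one_mul] at h1
  rw [h1, mul_comm]
  congr 1
  exact Nat.card_congr (Equiv.subtypeEquivRight fun μ =>
    ⟨fun h y => h y.1 y.2, fun h w hw => h ⟨w, hw⟩⟩)

/-- the sum over the new row -/
theorem row_sum {K : Type} [Field K] [Fintype K] [DecidableEq C] (L : Matrix A C K) (j : ℕ) :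
    (Nat.card K : ℤ) ^ (j + 1) * ∑ μ : C → K, (knr L μ : ℤ) ^ (j + 1) =
      (Nat.card K : ℤ) ^ Fintype.card C *
        (((Nat.card K : ℤ) ^ (j + 1) - 1) * (kn L : ℤ) ^ j + (kn L : ℤ) ^ (j + 1)) := by
  classical
  let kills : (C → K) → Prop := fun μ =>
    ∀ w : C → K, (∀ a, ∑ c, L a c * w c = 0) → ∑ c, μ c * w c = 0
  have h1 : ∀ μ : C → K, (Nat.card K : ℤ) ^ (j + 1) * (knr L μ : ℤ) ^ (j + 1) =
      (kn L : ℤ) ^ (j + 1) + (if kills μ then ((Nat.card K : ℤ) ^ (j + 1) - 1) * (kn L : ℤ) ^ (j + 1)
        else 0) := by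
    intro μ
    split_ifs with h
    · rw [knr_eq L μ h]; ring
    · rw [add_zero, ← knr_mul L μ h]
      push_cast
      ring
  rw [Finset.mul_sum, Finset.sum_congr rfl fun μ _ => h1 μ, Finset.sum_add_distrib,
    Finset.sum_const, ← Finset.sum_filter, Finset.sum_const, nsmul_eq_mul, nsmul_eq_mul]
  have h2 : ((Finset.univ.filter kills).card : ℤ) * (kn L : ℤ) = (Nat.card K : ℤ) ^ Fintype.card C := by
    have := card_kill L
    rw [Nat.card_eq_fintype_card, Fintype.card_subtype] at this
    exact_mod_cast this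
  have h3 : ((Finset.univ : Finset (C → K)).card : ℤ) = (Nat.card K : ℤ) ^ Fintype.card C := by
    rw [Finset.card_univ, Fintype.card_fun, ← Nat.card_eq_fintype_card]
    push_cast
    rfl
  rw [h3, pow_succ (kn L : ℤ) j]
  linear_combination (((Nat.card K : ℤ) ^ (j + 1) - 1) * (kn L : ℤ) ^ j) * h2

/-- the sums of powers of the numbers of kernel vectors, over the matrices with prescribed zeros -/
noncomputable def G (j : ℕ) (Z : A → C → Prop) (K : Type) [Field K] : ℤ := by
  classical
  exact ∑ᶠ l : Matrix A C K, (if (∀ a c, Z a c → l a c = 0) then (kn l : ℤ) ^ j else 0)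

theorem G_eq (j : ℕ) (Z : A → C → Prop) (K : Type) [Field K] [Fintype K]
    [DecidableEq A] [DecidableEq C] [DecidablePred fun l : Matrix A C K => ∀ a c, Z a c → l a c = 0] :
    G j Z K = ∑ l : Matrix A C K, (if (∀ a c, Z a c → l a c = 0) then (kn l : ℤ) ^ j else 0) := by
  unfold G
  rw [finsum_eq_sum_of_fintype]
  refine Finset.sum_congr rfl fun l _ => ?_
  congr

theorem kn_le {K : Type} [Field K] [Finite K] (L : Matrix A C K) :
    kn L ≤ Nat.card K ^ Fintype.card C := by
  have h1 : Nat.card (C → K) = Nat.card K ^ Fintype.card C := by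
    rw [Nat.card_fun, Nat.card_eq_fintype_card (α := C)]
  rw [← h1]
  exact Finite.card_subtype_le _

theorem G_growth (j : ℕ) (Z : A → C → Prop) : Growth (G j Z) := by
  classical
  refine growth_of_le (n := Fintype.card A * Fintype.card C + Fintype.card C * j) fun K _ _ => ?_
  have := Fintype.ofFinite K
  have h0 : 0 ≤ G j Z K := by
    rw [G_eq]
    refine Finset.sum_nonneg fun l _ => ?_
    split_ifs <;> positivity
  rw [abs_of_nonneg (by exact_mod_cast h0), G_eq]
  have h1 : ∑ l : Matrix A C K, (if (∀ a c, Z a c → l a c = 0) then (kn l : ℤ) ^ j else 0) ≤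
      ∑ _l : Matrix A C K, (Nat.card K : ℤ) ^ (Fintype.card C * j) := by
    refine Finset.sum_le_sum fun l _ => ?_
    split_ifs
    · rw [pow_mul]
      have : (kn l : ℤ) ≤ (Nat.card K : ℤ) ^ Fintype.card C := by exact_mod_cast kn_le l
      exact pow_le_pow_left₀ (by positivity) this j
    · positivity
  rw [Finset.sum_const, nsmul_eq_mul] at h1
  have h2 : (Finset.univ : Finset (Matrix A C K)).card = Nat.card K ^ (Fintype.card A * Fintype.card C) := by
    rw [Finset.card_univ, ← Nat.card_eq_fintype_card]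
    show Nat.card (A → C → K) = _
    rw [Nat.card_fun, Nat.card_fun, Nat.card_eq_fintype_card (α := A),
      Nat.card_eq_fintype_card (α := C), ← pow_mul, mul_comm]
  rw [h2] at h1
  rw [pow_add]
  exact_mod_cast h1

/-- a free row -/
theorem G_row (j : ℕ) (Z : A → C → Prop) (K : Type) [Field K] [Finite K] :
    (Nat.card K : ℤ) ^ (j + 1) * G (j + 1) (Sum.elim (fun _ _ => False) Z : Unit ⊕ A → C → Prop) K =
      (Nat.card K : ℤ) ^ Fintype.card C *
        (((Nat.card K : ℤ) ^ (j + 1) - 1) * G j Z K + G (j + 1) Z K) := by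
  classical
  have := Fintype.ofFinite K
  let e : ((C → K) × Matrix A C K) ≃ Matrix (Unit ⊕ A) C K :=
    { toFun := fun p => fromRows (Matrix.of fun _ => p.1) p.2
      invFun := fun M => (M (Sum.inl ()), fun a => M (Sum.inr a))
      left_inv := fun p => rfl
      right_inv := fun M => by
        ext (i | i) c
        · rfl
        · rfl }
  rw [G_eq, G_eq, G_eq, ← Equiv.sum_comp e, Fintype.sum_prod_type_right]
  have hk : ∀ (μ : C → K) (L : Matrix A C K), kn (e (μ, L)) = knr L μ := by
    intro μ L
    unfold kn knr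
    refine Nat.card_congr (Equiv.subtypeEquivRight fun w => ?_)
    constructor
    · intro h
      exact ⟨fun a => h (Sum.inr a), h (Sum.inl ())⟩
    · rintro ⟨h1, h2⟩ (_ | a)
      · exact h2
      · exact h1 a
  have hz : ∀ (μ : C → K) (L : Matrix A C K), (∀ a c, (Sum.elim (fun _ _ => False) Z :
      Unit ⊕ A → C → Prop) a c → e (μ, L) a c = 0) ↔ ∀ a c, Z a c → L a c = 0 := by
    intro μ L
    constructor
    · intro h a c hac
      exact h (Sum.inr a) c hac
    · rintro h (_ | a) c hac
      · exact hac.elim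
      · exact h a c hac
  rw [Finset.mul_sum, mul_add, Finset.mul_sum, Finset.mul_sum, Finset.mul_sum,
    ← Finset.sum_add_distrib]
  refine Finset.sum_congr rfl fun L _ => ?_
  by_cases h : ∀ a c, Z a c → L a c = 0
  · rw [if_pos h, if_pos h, Finset.sum_congr rfl fun μ _ => (if_pos ((hz μ L).2 h)),
      Finset.sum_congr rfl fun μ _ => by rw [hk μ L], row_sum]
    ring
  · rw [if_neg h, if_neg h, Finset.sum_congr rfl fun μ _ => (if_neg fun h' => h ((hz μ L).1 h'))]
    simp

end

section
variable {P : ℕ} {𝒞 : ((K : Type) → [Field K] → ℤ) → Prop} (h𝒞 : ClosedClass P 𝒞)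
include h𝒞

theorem G_down {j : ℕ} (h : ∀ (A C : Type) [Fintype A] [Fintype C] (Z : A → C → Prop), 𝒞 (G (j + 1) Z))
    (A C : Type) [Fintype A] [Fintype C] (Z : A → C → Prop) : 𝒞 (G j Z) := by
  refine h𝒞.div (G_growth j Z) (Polynomial.X ^ Fintype.card C * (Polynomial.X ^ (j + 1) - 1))
    (.mul (Den.X.pow _) (.cyc _ (Nat.succ_pos j))) ?_
  refine h𝒞.congr (h𝒞.add (h𝒞.poly_mul (h (Unit ⊕ A) C (Sum.elim (fun _ _ => False) Z))
    (Polynomial.X ^ (j + 1))) (h𝒞.neg (h𝒞.poly_mul (h A C Z) (Polynomial.X ^ Fintype.card C))))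
    fun K _ _ _ => ?_
  simp only [Polynomial.eval_mul, Polynomial.eval_pow, Polynomial.eval_X, Polynomial.eval_sub,
    Polynomial.eval_one]
  rw [G_row]
  ring

theorem G_le {i j : ℕ} (hij : i ≤ j)
    (h : ∀ (A C : Type) [Fintype A] [Fintype C] (Z : A → C → Prop), 𝒞 (G j Z)) :
    ∀ (A C : Type) [Fintype A] [Fintype C] (Z : A → C → Prop), 𝒞 (G i Z) := by
  induction j, hij using Nat.le_induction with
  | base => exact h
  | succ m _ ih => exact ih fun A C _ _ Z => G_down h𝒞 h A C Z

end

end Pool.Agent.Helper90.PH
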