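import Pool.Agent.Helper90.PH.Stm

/-!
# The number of the matrices with given kernel vectors depends only on the supports (helper71)
-/

set_option autoImplicit false
set_option linter.unusedSectionVars false

namespace Pool.Agent.Helper90.PH.SUPP

open Module

/-- Zeros of a linear map, counted on the dual side (copy of `Pool.Agent.Helper90.PG.card_dual`). -/
theorem card_dual {K : Type} [Field K] [Finite K] {E I : Type} [AddCommGroup E] [Module K E]
    [Finite E] [Fintype I] (φ : E →ₗ[K] (I → K)) :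
    Nat.card {y : E // φ y = 0} * Nat.card K ^ Fintype.card I =
      Nat.card E * Nat.card {l : I → K // ∀ y, ∑ i, l i * φ y i = 0} := by
  classical
  have hf : Module.Finite K E := Module.Finite.of_finite
  let ψ : (I → K) →ₗ[K] Module.Dual K E := φ.dualMap ∘ₗ (dotProductEquiv K I).toLinearMap
  have h1 : Nat.card {y : E // φ y = 0} = Nat.card K ^ finrank K (LinearMap.ker φ) :=
    Module.natCard_eq_pow_finrank (K := K) (V := LinearMap.ker φ)
  have h2 : Nat.card {l : I → K // ∀ y, ∑ i, l i * φ y i = 0} =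
      Nat.card K ^ finrank K (LinearMap.ker ψ) := by
    rw [← Module.natCard_eq_pow_finrank (K := K) (V := LinearMap.ker ψ)]
    refine Nat.card_congr (Equiv.subtypeEquivRight fun l => ?_)
    rw [LinearMap.mem_ker]
    constructor
    · intro h
      ext y
      exact h y
    · intro h y
      exact LinearMap.congr_fun h y
  have h3 : Nat.card E = Nat.card K ^ finrank K E := Module.natCard_eq_pow_finrank (K := K)
  have h4 := φ.finrank_range_add_finrank_ker
  have h5 := ψ.finrank_range_add_finrank_ker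
  have h6 : finrank K (LinearMap.range ψ) = finrank K (LinearMap.range φ) := by
    rw [← LinearMap.finrank_range_dualMap_eq_finrank_range φ]
    rw [LinearMap.range_comp_of_range_eq_top _ (LinearEquiv.range _)]
  rw [Module.finrank_fintype_fun_eq_card] at h5
  rw [h1, h2, h3, ← pow_add, ← pow_add]
  congr 1
  omega

section
variable {A C : Type} [Fintype A] [Fintype C] (Z : A → C → Prop)

/-- The free positions. -/
abbrev Pos : Type := {p : A × C // ¬ Z p.1 p.2}

/-- The relation: positions in the product of the supports. -/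
def rel (R : Set A) (S : Set C) : A ⊕ C → A ⊕ C → Prop
  | Sum.inl a, Sum.inr c => ¬ Z a c ∧ a ∈ R ∧ c ∈ S
  | _, _ => False

/-- The pinned points. -/
def pin (R : Set A) (S : Set C) : A ⊕ C → Prop
  | Sum.inl a => a ∉ R ∧ ∃ c ∈ S, ¬ Z a c
  | Sum.inr c => c ∉ S ∧ ∃ a ∈ R, ¬ Z a c

variable {K : Type} [Field K] (v : C → K) (w : A → K)

open Classical in
/-- The linear map. -/
noncomputable def phi : (Pos Z → K) →ₗ[K] (A ⊕ C → K) where
  toFun y := Sum.elim (fun a => ∑ e : Pos Z, if e.1.1 = a then y e * v e.1.2 else 0)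
    (fun c => ∑ e : Pos Z, if e.1.2 = c then y e * w e.1.1 else 0)
  map_add' y y' := by
    ext i
    rcases i with a | c
    · simp only [Sum.elim_inl, Pi.add_apply]
      rw [← Finset.sum_add_distrib]
      apply Finset.sum_congr rfl
      intro e _
      split_ifs <;> ring
    · simp only [Sum.elim_inr, Pi.add_apply]
      rw [← Finset.sum_add_distrib]
      apply Finset.sum_congr rfl
      intro e _
      split_ifs <;> ring
  map_smul' t y := by
    ext i
    rcases i with a | c
    · simp only [Sum.elim_inl, Pi.smul_apply, smul_eq_mul, RingHom.id_apply]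
      rw [Finset.mul_sum]
      apply Finset.sum_congr rfl
      intro e _
      split_ifs <;> ring
    · simp only [Sum.elim_inr, Pi.smul_apply, smul_eq_mul, RingHom.id_apply]
      rw [Finset.mul_sum]
      apply Finset.sum_congr rfl
      intro e _
      split_ifs <;> ring

open Classical in
theorem phi_inl (y : Pos Z → K) (a : A) : phi Z v w y (Sum.inl a) =
    ∑ e : Pos Z, (if e.1.1 = a then y e * v e.1.2 else 0) := rfl

open Classical in
theorem phi_inr (y : Pos Z → K) (c : C) : phi Z v w y (Sum.inr c) =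
    ∑ e : Pos Z, (if e.1.2 = c then y e * w e.1.1 else 0) := rfl

open Classical in
/-- The pairing. -/
theorem pairing (l : A ⊕ C → K) (y : Pos Z → K) : ∑ i, l i * phi Z v w y i =
    ∑ e : Pos Z, y e * (l (Sum.inl e.1.1) * v e.1.2 + l (Sum.inr e.1.2) * w e.1.1) := by
  rw [Fintype.sum_sum_type]
  simp only [phi_inl, phi_inr, Finset.mul_sum]
  rw [Finset.sum_comm, Finset.sum_comm (s := (Finset.univ : Finset C))]
  rw [← Finset.sum_add_distrib]
  apply Finset.sum_congr rfl
  intro e _
  simp only [mul_ite, mul_zero, Finset.sum_ite_eq, Finset.mem_univ, if_true]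
  ring

theorem dual_iff (l : A ⊕ C → K) : (∀ y, ∑ i, l i * phi Z v w y i = 0) ↔
    ∀ e : Pos Z, l (Sum.inl e.1.1) * v e.1.2 + l (Sum.inr e.1.2) * w e.1.1 = 0 := by
  classical
  constructor
  · intro h e
    have := h (Pi.single e 1)
    rw [pairing, Finset.sum_eq_single e] at this
    · simpa using this
    · intro e' _ he
      rw [Pi.single_eq_of_ne he, zero_mul]
    · intro he
      exact absurd (Finset.mem_univ e) he
  · intro h y
    rw [pairing]
    apply Finset.sum_eq_zero
    intro e _
    rw [h e, mul_zero]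

open Classical in
/-- The scaling. -/
noncomputable def sc : A ⊕ C → K
  | Sum.inl a => if w a = 0 then 1 else w a
  | Sum.inr c => if v c = 0 then 1 else - v c

theorem sc_ne (i : A ⊕ C) : sc v w i ≠ 0 := by
  rcases i with a | c
  · simp only [sc]
    split_ifs with h
    · exact one_ne_zero
    · exact h
  · simp only [sc]
    split_ifs with h
    · exact one_ne_zero
    · exact neg_ne_zero.2 h

theorem cond_iff (x : A ⊕ C → K) :
    (∀ e : Pos Z, (sc v w (Sum.inl e.1.1) * x (Sum.inl e.1.1)) * v e.1.2 +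
      (sc v w (Sum.inr e.1.2) * x (Sum.inr e.1.2)) * w e.1.1 = 0) ↔
    (∀ i j, rel Z {a | w a ≠ 0} {c | v c ≠ 0} i j → x i = x j) ∧
      ∀ i, pin Z {a | w a ≠ 0} {c | v c ≠ 0} i → x i = 0 := by
  constructor
  · intro h
    refine ⟨?_, ?_⟩
    · rintro (a | c) (a' | c') hij
      · exact absurd hij (by simp [rel])
      · obtain ⟨hZ, ha, hc⟩ := hij
        have := h ⟨(a, c'), hZ⟩
        simp only [Set.mem_ofPred_eq] at ha hc
        simp only [sc, if_neg ha, if_neg hc] at this
        have h2 : w a * v c' * (x (Sum.inl a) - x (Sum.inr c')) = 0 := by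
          linear_combination this
        rcases mul_eq_zero.1 h2 with h3 | h3
        · exact absurd h3 (mul_ne_zero ha hc)
        · exact sub_eq_zero.1 h3
      · exact absurd hij (by simp [rel])
      · exact absurd hij (by simp [rel])
    · rintro (a | c) hi
      · obtain ⟨ha, c, hc, hZ⟩ := hi
        have := h ⟨(a, c), hZ⟩
        simp only [Set.mem_ofPred_eq, not_not] at ha hc
        simp only [sc, ha, if_true, if_neg hc, mul_zero, add_zero, one_mul] at this
        rcases mul_eq_zero.1 this with h3 | h3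
        · exact h3
        · exact absurd h3 hc
      · obtain ⟨hc, a, ha, hZ⟩ := hi
        have := h ⟨(a, c), hZ⟩
        simp only [Set.mem_ofPred_eq, not_not] at ha hc
        simp only [sc, hc, if_true, if_neg ha, mul_zero, zero_add, one_mul] at this
        rcases mul_eq_zero.1 this with h3 | h3
        · exact h3
        · exact absurd h3 ha
  · rintro ⟨h1, h2⟩ ⟨⟨a, c⟩, hZ⟩
    simp only at hZ ⊢
    by_cases ha : w a = 0
    · by_cases hc : v c = 0
      · rw [ha, hc]
        ring
      · have := h2 (Sum.inl a) ⟨by simp [ha], c, hc, hZ⟩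
        rw [this, ha]
        ring
    · by_cases hc : v c = 0
      · have := h2 (Sum.inr c) ⟨by simp [hc], a, ha, hZ⟩
        rw [this, hc]
        ring
      · have := h1 (Sum.inl a) (Sum.inr c) ⟨hZ, ha, hc⟩
        rw [this]
        simp only [sc, if_neg ha, if_neg hc]
        ring

/-- The scaling as an equivalence. -/
noncomputable def scEquiv :
    {l : A ⊕ C → K // ∀ y, ∑ i, l i * phi Z v w y i = 0} ≃
    {x : A ⊕ C → K // (∀ i j, rel Z {a | w a ≠ 0} {c | v c ≠ 0} i j → x i = x j) ∧
      ∀ i, pin Z {a | w a ≠ 0} {c | v c ≠ 0} i → x i = 0} where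
  toFun l := ⟨fun i => (sc v w i)⁻¹ * l.1 i, by
    rw [← cond_iff]
    intro e
    rw [mul_inv_cancel_left₀ (sc_ne v w _), mul_inv_cancel_left₀ (sc_ne v w _)]
    exact (dual_iff Z v w l.1).1 l.2 e⟩
  invFun x := ⟨fun i => sc v w i * x.1 i, by
    rw [dual_iff]
    exact (cond_iff Z v w x.1).2 x.2⟩
  left_inv l := by
    apply Subtype.ext
    funext i
    show sc v w i * ((sc v w i)⁻¹ * l.1 i) = l.1 i
    rw [mul_inv_cancel_left₀ (sc_ne v w _)]
  right_inv x := by
    apply Subtype.ext
    funext i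
    show (sc v w i)⁻¹ * (sc v w i * x.1 i) = x.1 i
    rw [inv_mul_cancel_left₀ (sc_ne v w _)]

open Classical in
theorem sumA (L : A → C → K) (h0 : ∀ a c, Z a c → L a c = 0) (a : A) :
    (∑ e : Pos Z, if e.1.1 = a then L e.1.1 e.1.2 * v e.1.2 else 0) = ∑ c, L a c * v c := by
  have hs : ∑ c, L a c * v c = ∑ p : A × C, (if p.1 = a then L p.1 p.2 * v p.2 else 0) := by
    rw [Fintype.sum_prod_type, Finset.sum_comm]
    apply Finset.sum_congr rfl
    intro c _
    simp
  have h3 : ∑ p : {p : A × C // ¬ ¬ Z p.1 p.2},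
      (if p.1.1 = a then L p.1.1 p.1.2 * v p.1.2 else 0) = 0 := by
    apply Finset.sum_eq_zero
    rintro ⟨p, hp⟩ _
    rw [h0 _ _ (not_not.1 hp)]
    simp
  have h4 := Fintype.sum_subtype_add_sum_subtype (fun p : A × C => ¬ Z p.1 p.2)
    (fun p => if p.1 = a then L p.1 p.2 * v p.2 else 0)
  rw [h3, add_zero] at h4
  rw [hs, ← h4]

open Classical in
theorem sumC (L : A → C → K) (h0 : ∀ a c, Z a c → L a c = 0) (c : C) :
    (∑ e : Pos Z, if e.1.2 = c then L e.1.1 e.1.2 * w e.1.1 else 0) = ∑ a, L a c * w a := by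
  have hs : ∑ a, L a c * w a = ∑ p : A × C, (if p.2 = c then L p.1 p.2 * w p.1 else 0) := by
    rw [Fintype.sum_prod_type]
    apply Finset.sum_congr rfl
    intro a _
    simp
  have h3 : ∑ p : {p : A × C // ¬ ¬ Z p.1 p.2},
      (if p.1.2 = c then L p.1.1 p.1.2 * w p.1.1 else 0) = 0 := by
    apply Finset.sum_eq_zero
    rintro ⟨p, hp⟩ _
    rw [h0 _ _ (not_not.1 hp)]
    simp
  have h4 := Fintype.sum_subtype_add_sum_subtype (fun p : A × C => ¬ Z p.1 p.2)
    (fun p => if p.2 = c then L p.1 p.2 * w p.1 else 0)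
  rw [h3, add_zero] at h4
  rw [hs, ← h4]

open Classical in
/-- Extension by zero. -/
noncomputable def ext0 (y : Pos Z → K) : A → C → K :=
  fun a c => if h : ¬ Z a c then y ⟨(a, c), h⟩ else 0

theorem ext0_zero (y : Pos Z → K) (a : A) (c : C) (h : Z a c) : ext0 Z y a c = 0 :=
  dif_neg (not_not.2 h)

theorem ext0_pos (y : Pos Z → K) (e : Pos Z) : ext0 Z y e.1.1 e.1.2 = y e := dif_pos e.2

/-- Matrices with prescribed zeros are functions on the free positions. -/
noncomputable def matEquiv :
    {L : Matrix A C K // (∀ a c, Z a c → L a c = 0) ∧ (∀ a, ∑ c, L a c * v c = 0) ∧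
        ∀ c, ∑ a, L a c * w a = 0} ≃ {y : Pos Z → K // phi Z v w y = 0} where
  toFun L := ⟨fun e => L.1 e.1.1 e.1.2, by
    funext i
    rcases i with a | c
    · exact (phi_inl Z v w (fun e => L.1 e.1.1 e.1.2) a).trans
        ((sumA Z v (fun a c => L.1 a c) L.2.1 a).trans (L.2.2.1 a))
    · exact (phi_inr Z v w (fun e => L.1 e.1.1 e.1.2) c).trans
        ((sumC Z w (fun a c => L.1 a c) L.2.1 c).trans (L.2.2.2 c))⟩
  invFun y := ⟨ext0 Z y.1, by
    refine ⟨fun a c h => ext0_zero Z y.1 a c h, fun a => ?_, fun c => ?_⟩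
    · have h1 : phi Z v w y.1 (Sum.inl a) = 0 := congrFun y.2 (Sum.inl a)
      rw [phi_inl] at h1
      have h2 := sumA Z v (ext0 Z y.1) (fun a c h => ext0_zero Z y.1 a c h) a
      simp only [ext0_pos] at h2
      exact h2.symm.trans h1
    · have h1 : phi Z v w y.1 (Sum.inr c) = 0 := congrFun y.2 (Sum.inr c)
      rw [phi_inr] at h1
      have h2 := sumC Z w (ext0 Z y.1) (fun a c h => ext0_zero Z y.1 a c h) c
      simp only [ext0_pos] at h2
      exact h2.symm.trans h1⟩
  left_inv L := by
    apply Subtype.ext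
    funext a c
    by_cases h : Z a c
    · exact (ext0_zero Z _ a c h).trans (L.2.1 a c h).symm
    · exact ext0_pos Z (fun e : Pos Z => L.1 e.1.1 e.1.2) ⟨(a, c), h⟩
  right_inv y := by
    apply Subtype.ext
    funext e
    exact ext0_pos Z y.1 e

end

theorem main : S_EQV → S_SUPP := by
  intro hE A C _ _ Z
  classical
  choose n hn using fun (RS : Set A × Set C) => hE (A ⊕ C) (rel Z RS.1 RS.2) (pin Z RS.1 RS.2)
  refine ⟨fun S R => Nat.card (Pos Z) + n (R, S) - (Fintype.card A + Fintype.card C), ?_⟩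
  intro K _ _ v w
  have h1 := card_dual (phi Z v w)
  rw [Nat.card_congr (scEquiv Z v w), hn ({a | w a ≠ 0}, {c | v c ≠ 0}) K,
    ← Nat.card_congr (matEquiv Z v w), Fintype.card_sum, Nat.card_fun, ← pow_add] at h1
  set N := Nat.card {L : Matrix A C K // (∀ a c, Z a c → L a c = 0) ∧
    (∀ a, ∑ c, L a c * v c = 0) ∧ ∀ c, ∑ a, L a c * w a = 0} with hN
  have hq : 1 < Nat.card K := Finite.one_lt_card
  have hN0 : 0 < N := by
    have : Nonempty {L : Matrix A C K // (∀ a c, Z a c → L a c = 0) ∧
        (∀ a, ∑ c, L a c * v c = 0) ∧ ∀ c, ∑ a, L a c * w a = 0} :=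
      ⟨⟨0, by simp, by simp, by simp⟩⟩
    exact Nat.card_pos
  have hle : Fintype.card A + Fintype.card C ≤ Nat.card (Pos Z) +
      n ({a | w a ≠ 0}, {c | v c ≠ 0}) := by
    apply (Nat.pow_le_pow_iff_right hq).1
    rw [← h1]
    exact Nat.le_mul_of_pos_left _ hN0
  obtain ⟨t, ht⟩ := Nat.exists_eq_add_of_le hle
  show N = Nat.card K ^ (Nat.card (Pos Z) + n ({a | w a ≠ 0}, {c | v c ≠ 0}) -
    (Fintype.card A + Fintype.card C))
  rw [ht, Nat.add_sub_cancel_left]
  rw [ht, pow_add (Nat.card K) (Fintype.card A + Fintype.card C) t, mul_comm N] at h1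
  exact Nat.eq_of_mul_eq_mul_left (pow_pos (by omega) _) h1

end Pool.Agent.Helper90.PH.SUPP
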